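import Mathlib

open Polynomial

namespace Helper67.CF

/-- the curve `y^(s-1) = (x+1)^s` parametrised by `x = u^(s-1) - 1`, `y = u^s`; polynomials in `k[x][y]` -/
noncomputable def phi (k : Type*) [Field k] (s : ℕ) : k[X][X] →+* k[X] :=
  Polynomial.eval₂RingHom (Polynomial.compRingHom (X ^ (s - 1) - 1)) (X ^ s)

noncomputable def curve (k : Type*) [Field k] (s : ℕ) : k[X][X] := X ^ (s - 1) - C ((X + 1) ^ s)

def DegLE {A : Type*} [Semiring A] (d : ℕ) (F : A[X][X]) : Prop :=
  ∀ j i, (F.coeff j).coeff i ≠ 0 → i + j ≤ d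

/-- `x ↦ t x`, `T ↦ t^r T`; in the target the outermost variable `X` is `t`, `C X` is `T`, `C (C X)` is `x`. -/
noncomputable def Wt (A : Type*) [CommRing A] (r : ℕ) : A[X][X] →+* A[X][X][X] :=
  Polynomial.eval₂RingHom (R := A[X]) (S := A[X][X][X])
    (Polynomial.eval₂RingHom (R := A) (S := A[X][X][X])
      ((C : A[X][X] →+* A[X][X][X]).comp ((C : A[X] →+* A[X][X]).comp (C : A →+* A[X])))
      (X * C (C X)))
    (X ^ r * C X)


/- part 1 -/

theorem gap_one {k : Type*} [Field k] (f : k[X]) (N : ℕ) (hN : (N : k) ≠ 0) (hdeg : f.natDegree ≤ N)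
    (hdvd : (X - 1) ^ N ∣ f) (h1 : f.coeff 1 = 0) : f = 0 := by
  by_contra hf
  obtain ⟨g, hg⟩ := hdvd
  have hm : ((X - 1 : k[X]) ^ N).Monic := (by simpa using monic_X_sub_C (1:k) : (X - 1 : k[X]).Monic).pow N
  have hg0 : g ≠ 0 := by
    rintro rfl
    exact hf (by rw [hg, mul_zero])
  have hdN : ((X - 1 : k[X]) ^ N).natDegree = N := by
    have : (X - 1 : k[X]).natDegree = 1 := by simpa using natDegree_X_sub_C (1:k)
    rw [natDegree_pow, this, mul_one]
  have hd : f.natDegree = N + g.natDegree := by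
    rw [hg, hm.natDegree_mul' hg0, hdN]
  have hgd : g.natDegree = 0 := by omega
  obtain ⟨c, rfl⟩ := natDegree_eq_zero.mp hgd
  have hc : c ≠ 0 := by
    rintro rfl
    simp at hg0
  rw [hg, coeff_mul_C] at h1
  have h2 : ((X - 1 : k[X]) ^ N).coeff 1 = (-1) ^ (N - 1) * N := by
    have h3 := coeff_X_add_C_pow (-1:k) N 1
    have h4 : (X + C (-1:k)) = (X - 1 : k[X]) := by
      rw [map_neg, map_one, sub_eq_add_neg]
    rw [h4] at h3
    rw [h3, Nat.choose_one_right]
  rw [h2] at h1
  have : ((-1 : k) ^ (N - 1) * N) * c ≠ 0 :=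
    mul_ne_zero (mul_ne_zero (pow_ne_zero _ (by simp)) hN) hc
  exact this h1



/- part 2 -/

theorem gap_two {k : Type*} [Field k] [CharZero k] (f w : k[X]) (r : ℕ) (hr : 3 ≤ r)
    (hdeg : f.natDegree ≤ r) (hw : w.eval 1 ≠ 0) (μ : k)
    (hdvd : (X - 1) ^ r ∣ f + C μ * (X - 1) ^ (r - 1) * w)
    (h1 : f.coeff 1 = 0) (h2 : f.coeff 2 = 0) : μ = 0 := by
  obtain ⟨n, rfl⟩ : ∃ n, r = n + 1 := ⟨r - 1, by omega⟩
  have hn : 2 ≤ n := by omega
  rw [Nat.add_sub_cancel] at hdvd
  have hX : (X - 1 : k[X]) = X + C (-1) := by simp [sub_eq_add_neg]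
  have hXne : (X - 1 : k[X]) ≠ 0 := by
    have := Polynomial.X_sub_C_ne_zero (1 : k)
    simpa using this
  have h3 : (X - 1 : k[X]) ^ n ∣ f := by
    have h4 : (X - 1 : k[X]) ^ n ∣ f + C μ * (X - 1) ^ n * w :=
      dvd_trans (pow_dvd_pow _ (Nat.le_succ n)) hdvd
    have h5 : (X - 1 : k[X]) ^ n ∣ C μ * (X - 1) ^ n * w :=
      Dvd.intro (C μ * w) (by ring)
    exact (dvd_add_left h5).mp h4
  obtain ⟨g, hg⟩ := h3
  have h6 : (X - 1 : k[X]) ∣ g + C μ * w := by
    rw [hg, show (X - 1 : k[X]) ^ n * g + C μ * (X - 1) ^ n * w = (X - 1) ^ n * (g + C μ * w) by ring,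
      pow_succ] at hdvd
    exact (mul_dvd_mul_iff_left (pow_ne_zero n hXne)).mp hdvd
  have h7 : g.eval 1 + μ * w.eval 1 = 0 := by
    have : (X - C (1 : k)) ∣ g + C μ * w := by simpa using h6
    rw [Polynomial.dvd_iff_isRoot] at this
    simpa [Polynomial.IsRoot.def] using this
  have hgd : g.natDegree ≤ 1 := by
    by_cases hg0 : g = 0
    · simp [hg0]
    · have h8 : f.natDegree = n + g.natDegree := by
        rw [hg, Polynomial.natDegree_mul (pow_ne_zero n hXne) hg0, Polynomial.natDegree_pow]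
        have : (X - 1 : k[X]).natDegree = 1 := by
          have := Polynomial.natDegree_X_sub_C (1 : k)
          simpa using this
        rw [this]
        ring
      omega
  have hge : g = C (g.coeff 0) + C (g.coeff 1) * X := by
    have := Polynomial.eq_X_add_C_of_natDegree_le_one hgd
    rw [add_comm]
    exact this
  set p := g.coeff 0 with hp
  set q := g.coeff 1 with hq
  have hf : f = (X + C (-1)) ^ n * (C p + C q * X) := by rw [← hge, hg, hX]
  have c0 : ((X + C (-1) : k[X]) ^ n).coeff 0 = (-1) ^ n := by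
    rw [Polynomial.coeff_X_add_C_pow]; simp
  have c1 : ((X + C (-1) : k[X]) ^ n).coeff 1 = (-1) ^ (n - 1) * (n : k) := by
    rw [Polynomial.coeff_X_add_C_pow]; simp
  have c2 : ((X + C (-1) : k[X]) ^ n).coeff 2 = (-1) ^ (n - 2) * (n.choose 2 : k) := by
    rw [Polynomial.coeff_X_add_C_pow]
  have hsplit : f = C p * (X + C (-1)) ^ n + C q * ((X + C (-1)) ^ n * X) := by rw [hf]; ring
  have e1 : f.coeff 1 = p * ((X + C (-1) : k[X]) ^ n).coeff 1 + q * ((X + C (-1) : k[X]) ^ n).coeff 0 := by
    rw [hsplit, Polynomial.coeff_add, Polynomial.coeff_C_mul, Polynomial.coeff_C_mul,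
      show (1:ℕ) = 0 + 1 from rfl, Polynomial.coeff_mul_X]
  have e2 : f.coeff 2 = p * ((X + C (-1) : k[X]) ^ n).coeff 2 + q * ((X + C (-1) : k[X]) ^ n).coeff 1 := by
    rw [hsplit, Polynomial.coeff_add, Polynomial.coeff_C_mul, Polynomial.coeff_C_mul,
      show (2:ℕ) = 1 + 1 from rfl, Polynomial.coeff_mul_X]
  rw [h1, c1, c0] at e1
  rw [h2, c1, c2] at e2
  obtain ⟨j, rfl⟩ : ∃ j, n = j + 2 := ⟨n - 2, by omega⟩
  simp only [Nat.add_sub_cancel, show j + 2 - 1 = j + 1 from rfl] at e1 e2
  have hs : ((-1 : k) ^ j) * ((-1 : k) ^ j) = 1 := by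
    rw [← mul_pow]; simp
  have e1' : q = p * ((j + 2 : ℕ) : k) := by
    have := congrArg (fun z => ((-1 : k) ^ j) * z) e1
    simp only [mul_zero] at this
    have h9 : (-1 : k) ^ j * (p * ((-1) ^ (j + 1) * ((j + 2 : ℕ) : k)) + q * (-1) ^ (j + 2)) =
        ((-1 : k) ^ j * (-1 : k) ^ j) * (q - p * ((j + 2 : ℕ) : k)) := by ring
    rw [h9, hs, one_mul] at this
    exact (sub_eq_zero.mp this.symm)
  have e2' : p * ((j + 2).choose 2 : k) - q * ((j + 2 : ℕ) : k) = 0 := by
    have := congrArg (fun z => ((-1 : k) ^ j) * z) e2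
    simp only [mul_zero] at this
    have h9 : (-1 : k) ^ j * (p * ((-1) ^ j * ((j + 2).choose 2 : k)) + q * ((-1) ^ (j + 1) * ((j + 2 : ℕ) : k))) =
        ((-1 : k) ^ j * (-1 : k) ^ j) * (p * ((j + 2).choose 2 : k) - q * ((j + 2 : ℕ) : k)) := by ring
    rw [h9, hs, one_mul] at this
    exact this.symm
  have hch : 2 * ((j + 2).choose 2 : k) = ((j : k) + 2) * ((j : k) + 1) := by
    have h10 : (j + 2).choose 2 * 2 = (j + 2) * (j + 1) := by
      have := Nat.choose_two_right (j + 2)
      have h11 : 2 ∣ (j + 2) * (j + 1) := by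
        have := Nat.even_mul_succ_self (j + 1)
        have h12 := this.two_dvd
        rwa [mul_comm] at h12
      rw [this, show j + 2 - 1 = j + 1 from rfl]
      exact Nat.div_mul_cancel h11
    have h13 := congrArg (Nat.cast (R := k)) h10
    push_cast at h13
    linear_combination h13
  have hp0 : p = 0 := by
    rw [e1'] at e2'
    push_cast at e2'
    have h14 : p * (((j : k) + 2) * ((j : k) + 3)) = 0 := by
      linear_combination (-2) * e2' + p * hch
    have h15 : (((j : k) + 2) * ((j : k) + 3)) ≠ 0 := by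
      have : (((j + 2) * (j + 3) : ℕ) : k) ≠ 0 := by
        rw [Nat.cast_ne_zero]; positivity
      push_cast at this
      exact this
    exact (mul_eq_zero.mp h14).resolve_right h15
  have hq0 : q = 0 := by rw [e1', hp0, zero_mul]
  have hg0 : g = 0 := by rw [hge, hp0, hq0]; simp
  rw [hg0] at h7
  simp only [Polynomial.eval_zero, zero_add] at h7
  exact (mul_eq_zero.mp h7).resolve_right hw



/- part 3 -/

theorem curve_dvd_key (m j j0 n : ℕ) (hj : j < m) (hj0 : j0 < m)
    (hle : (m+1) * j ≤ (m+1)*j0 + m*n) (hd : m ∣ (m+1)*j0 + m*n - (m+1)*j) : j = j0 := by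
  have h1 : (m+1)*j ≡ (m+1)*j0 + m*n [MOD m] := (Nat.modEq_iff_dvd' hle).mpr hd
  have h2 : (m+1)*j = m * j + j := by ring
  have h3 : (m+1)*j0 + m*n = m * (j0 + n) + j0 := by ring
  unfold Nat.ModEq at h1
  rw [h2, h3, Nat.mul_add_mod, Nat.mul_add_mod, Nat.mod_eq_of_lt hj, Nat.mod_eq_of_lt hj0] at h1
  exact h1

theorem curve_dvd_phi_curve {k : Type*} [Field k] (s : ℕ) : phi k s (curve k s) = 0 := by
  unfold phi curve
  simp only [map_sub, map_pow, Polynomial.coe_eval₂RingHom, Polynomial.eval₂_X,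
    Polynomial.eval₂_C, Polynomial.coe_compRingHom_apply, Polynomial.pow_comp,
    Polynomial.add_comp, Polynomial.X_comp, Polynomial.one_comp, map_add, map_one]
  rw [sub_add_cancel, ← pow_mul, ← pow_mul, mul_comm, sub_self]

theorem curve_dvd {k : Type*} [Field k] (s : ℕ) (hs : 3 ≤ s) (F : k[X][X]) (h : phi k s F = 0) :
    curve k s ∣ F := by
  classical
  obtain ⟨m, rfl⟩ : ∃ m, s = m + 1 := ⟨s - 1, by omega⟩
  have hm : 0 < m := by omega
  have hmon : (curve k (m + 1)).Monic := by
    unfold curve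
    exact monic_X_pow_sub_C _ (by omega)
  have hdegc : (curve k (m + 1)).degree = m := by
    unfold curve
    rw [Nat.add_sub_cancel]
    exact degree_X_pow_sub_C hm _
  rw [← modByMonic_eq_zero_iff_dvd hmon]
  set R := F %ₘ curve k (m + 1) with hR
  have hdeg : R.degree < m := by
    rw [← hdegc]
    exact degree_modByMonic_lt F hmon
  have hphiR : phi k (m + 1) R = 0 := by
    have h1 := modByMonic_add_div F (curve k (m + 1))
    rw [← hR] at h1
    rw [← h1, map_add, map_mul, curve_dvd_phi_curve, zero_mul, add_zero] at h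
    exact h
  have hcoeff : ∀ j, m ≤ j → R.coeff j = 0 := fun j hj =>
    coeff_eq_zero_of_degree_lt (lt_of_lt_of_le hdeg (by exact_mod_cast hj))
  have hsum : R = ∑ j ∈ Finset.range m, C (R.coeff j) * X ^ j := by
    ext1 j
    rw [finsetSum_coeff]
    simp only [coeff_C_mul, coeff_X_pow]
    by_cases hj : j < m
    · rw [Finset.sum_eq_single j]
      · simp
      · intro b _ hb
        rw [if_neg (Ne.symm hb), mul_zero]
      · intro hj'
        exact absurd (Finset.mem_range.mpr hj) hj'
    · rw [hcoeff j (by omega), Finset.sum_eq_zero]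
      intro b hb
      have := Finset.mem_range.mp hb
      rw [if_neg (by omega), mul_zero]
  have hexp : ∀ p : k[X], p.comp (X ^ m - 1) = expand k m (p.comp (X - 1)) := by
    intro p
    rw [expand_eq_comp_X_pow, comp_assoc]
    simp
  have hphi : ∑ j ∈ Finset.range m, expand k m ((R.coeff j).comp (X - 1)) * X ^ ((m + 1) * j) =
      0 := by
    rw [← hphiR]
    conv_rhs => rw [hsum]
    rw [map_sum]
    refine Finset.sum_congr rfl ?_
    intro j _
    unfold phi
    rw [map_mul, map_pow, coe_eval₂RingHom, eval₂_C, eval₂_X, coe_compRingHom_apply,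
      Nat.add_sub_cancel, hexp, ← pow_mul]
  have hg : ∀ j < m, (R.coeff j).comp (X - 1) = 0 := by
    intro j0 hj0
    ext n
    have h1 := congrArg (fun p => p.coeff ((m+1)*j0 + m*n)) hphi
    simp only [finsetSum_coeff, coeff_zero] at h1
    rw [Finset.sum_eq_single j0] at h1
    · rw [coeff_mul_X_pow', if_pos (Nat.le_add_right _ _), Nat.add_sub_cancel_left,
        coeff_expand hm, if_pos (Dvd.intro _ rfl), Nat.mul_div_cancel_left _ hm] at h1
      rw [h1, coeff_zero]
    · intro j hj hne
      rw [coeff_mul_X_pow']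
      split_ifs with hle
      · rw [coeff_expand hm, if_neg]
        intro hd
        exact hne (curve_dvd_key m j j0 n (Finset.mem_range.mp hj) hj0 hle hd)
      · rfl
    · intro hj
      exact absurd (Finset.mem_range.mpr hj0) hj
  have hR0 : ∀ j < m, R.coeff j = 0 := by
    intro j hj
    have h1 := congrArg (fun p => p.comp (X + 1)) (hg j hj)
    simp only [comp_assoc, sub_comp, X_comp, one_comp, add_sub_cancel_right, comp_X,
      zero_comp] at h1
    exact h1
  rw [hsum]
  refine Finset.sum_eq_zero ?_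
  intro j hj
  rw [hR0 j (Finset.mem_range.mp hj)]
  simp



/- part 4 -/

theorem degLE_of_mul {k : Type*} [Field k] (s : ℕ) (hs : 2 ≤ s) (d : ℕ) (F : k[X][X])
    (h : DegLE (d + s) (curve k s * F)) : DegLE d F := by
  have key : ∀ n : ℕ, DegLE (d + n) F → DegLE d F := by
    intro n
    induction n with
    | zero => intro hF; exact hF
    | succ n ih =>
      intro hF
      apply ih
      intro j i hji
      have h1 := hF j i hji
      by_contra hcon
      have h2 : i + j = d + (n + 1) := by omega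
      have hG : (F.coeff j).natDegree ≤ i := by
        rw [Polynomial.natDegree_le_iff_coeff_eq_zero]
        intro l hl
        by_contra hne
        have := hF j l hne
        omega
      have hP : ((X + 1 : k[X]) ^ s).natDegree = s := by
        have : (X + 1 : k[X]) = X + C 1 := by rw [C_1]
        rw [this, Polynomial.natDegree_pow, Polynomial.natDegree_X_add_C, mul_one]
      have hPm : ((X + 1 : k[X]) ^ s).coeff s = 1 := by
        have h3 : ((X + 1 : k[X]) ^ s).Monic := by
          have : (X + 1 : k[X]) = X + C 1 := by rw [C_1]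
          rw [this]
          exact (Polynomial.monic_X_add_C 1).pow s
        have h4 := h3.coeff_natDegree
        rwa [hP] at h4
      have h5 : ((curve k s * F).coeff j).coeff (s + i) = - (F.coeff j).coeff i := by
        unfold curve
        rw [sub_mul, Polynomial.coeff_sub, Polynomial.coeff_C_mul, Polynomial.coeff_X_pow_mul',
          Polynomial.coeff_sub, Polynomial.coeff_mul_add_eq_of_natDegree_le hP.le hG, hPm, one_mul]
        have h6 : (if s - 1 ≤ j then F.coeff (j - (s - 1)) else 0).coeff (s + i) = 0 := by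
          split_ifs with hj
          · by_contra hne
            have := hF _ _ hne
            omega
          · simp
        rw [h6, zero_sub]
      have h7 : ((curve k s * F).coeff j).coeff (s + i) ≠ 0 := by
        rw [h5]
        exact neg_ne_zero.mpr hji
      have h8 := h j (s + i) h7
      omega
  obtain ⟨N, hN⟩ : ∃ N, DegLE N F := by
    refine ⟨(F.support.sup fun j => (F.coeff j).natDegree) + F.natDegree, ?_⟩
    intro j i hji
    have h1 : F.coeff j ≠ 0 := by
      intro h0
      rw [h0] at hji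
      simp at hji
    have h2 : j ≤ F.natDegree := Polynomial.le_natDegree_of_ne_zero h1
    have h3 : i ≤ (F.coeff j).natDegree := Polynomial.le_natDegree_of_ne_zero hji
    have h4 : (F.coeff j).natDegree ≤ F.support.sup fun j => (F.coeff j).natDegree :=
      Finset.le_sup (f := fun j => (F.coeff j).natDegree) (Polynomial.mem_support_iff.mpr h1)
    omega
  apply key N
  intro j i hji
  have := hN j i hji
  omega



/- part 5 -/

theorem phi_sum_aux {k : Type*} [Field k] (s : ℕ) (F : k[X][X]) :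
    phi k s F = ∑ j ∈ F.support, (F.coeff j).comp (X ^ (s - 1) - 1) * X ^ (s * j) := by
  unfold phi
  rw [Polynomial.coe_eval₂RingHom, Polynomial.eval₂_eq_sum, Polynomial.sum_def]
  refine Finset.sum_congr rfl fun j _ => ?_
  rw [Polynomial.coe_compRingHom_apply, ← pow_mul]

theorem phi_natDegree {k : Type*} [Field k] (s : ℕ) (hs : 1 ≤ s) (d : ℕ) (F : k[X][X]) (h : DegLE d F) :
    (phi k s F).natDegree ≤ s * d := by
  rw [phi_sum_aux]
  refine Polynomial.natDegree_sum_le_of_forall_le _ _ fun j hj => ?_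
  have hj0 : F.coeff j ≠ 0 := Polynomial.mem_support_iff.mp hj
  have h1 : (F.coeff j).natDegree + j ≤ d := by
    apply h j (F.coeff j).natDegree
    rw [Polynomial.coeff_natDegree]
    exact Polynomial.leadingCoeff_ne_zero.mpr hj0
  have h2 : ((F.coeff j).comp (X ^ (s - 1) - 1)).natDegree ≤ (F.coeff j).natDegree * (s - 1) := by
    refine Polynomial.natDegree_comp_le.trans ?_
    refine Nat.mul_le_mul_left _ ?_
    refine (Polynomial.natDegree_sub_le _ _).trans ?_
    rw [Polynomial.natDegree_X_pow, Polynomial.natDegree_one]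
    omega
  have h3 : (F.coeff j).natDegree * (s - 1) ≤ s * (F.coeff j).natDegree := by
    rw [mul_comm]
    exact Nat.mul_le_mul_right _ (Nat.sub_le _ _)
  calc ((F.coeff j).comp (X ^ (s - 1) - 1) * X ^ (s * j)).natDegree
      ≤ ((F.coeff j).comp (X ^ (s - 1) - 1)).natDegree + (X ^ (s * j) : k[X]).natDegree :=
        Polynomial.natDegree_mul_le
    _ ≤ s * (F.coeff j).natDegree + s * j := by
        rw [Polynomial.natDegree_X_pow]
        exact Nat.add_le_add_right (h2.trans h3) _
    _ = s * ((F.coeff j).natDegree + j) := by ring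
    _ ≤ s * d := Nat.mul_le_mul_left _ h1

theorem phi_coeff_aux {k : Type*} [Field k] (s : ℕ) (hs : 4 ≤ s) (F : k[X][X]) (m : ℕ) (hm : 1 ≤ m)
    (hm2 : m ≤ 2) : (phi k s F).coeff m = 0 := by
  rw [phi_sum_aux, Polynomial.finsetSum_coeff]
  refine Finset.sum_eq_zero fun j _ => ?_
  rw [Polynomial.coeff_mul_X_pow']
  split_ifs with hjm
  · have hj : j = 0 := by
      by_contra hj
      have : 1 ≤ j := Nat.one_le_iff_ne_zero.mpr hj
      have : s * 1 ≤ s * j := Nat.mul_le_mul_left _ this
      omega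
    subst hj
    have h1 : (F.coeff 0).comp (X ^ (s - 1) - 1) =
        Polynomial.expand k (s - 1) ((F.coeff 0).comp (X - 1)) := by
      rw [Polynomial.expand_eq_comp_X_pow, Polynomial.comp_assoc]
      congr 1
      simp
    rw [h1, Polynomial.coeff_expand (by omega), if_neg]
    intro hd
    have := Nat.le_of_dvd (by omega) hd
    omega
  · rfl

theorem phi_coeff_one {k : Type*} [Field k] (s : ℕ) (hs : 4 ≤ s) (F : k[X][X]) :
    (phi k s F).coeff 1 = 0 :=
  phi_coeff_aux s hs F 1 le_rfl (by norm_num)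

theorem phi_coeff_two {k : Type*} [Field k] (s : ℕ) (hs : 4 ≤ s) (F : k[X][X]) :
    (phi k s F).coeff 2 = 0 :=
  phi_coeff_aux s hs F 2 (by norm_num) le_rfl



/- part 6 -/

theorem prime_cancel {R : Type*} [CommRing R] [IsDomain R] (p A B : R) (hp : Prime p) (r n : ℕ)
    (h : ¬ p ^ (r + 1) ∣ A) (h' : p ^ (n + r) ∣ A * B) : p ^ n ∣ B := by
  induction r generalizing A with
  | zero =>
    rw [zero_add, pow_one] at h
    rw [add_zero] at h'
    exact hp.pow_dvd_of_dvd_mul_left n h h'
  | succ r ih =>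
    by_cases hd : p ∣ A
    · obtain ⟨A', rfl⟩ := hd
      apply ih A'
      · intro h1
        apply h
        rw [pow_succ' p (r + 1)]
        exact mul_dvd_mul_left p h1
      · have e : p ^ (n + (r + 1)) = p * p ^ (n + r) := by
          rw [← add_assoc, pow_succ']
        rw [e, mul_assoc] at h'
        exact (mul_dvd_mul_iff_left hp.ne_zero).1 h'
    · have h2 := hp.pow_dvd_of_dvd_mul_left _ hd h'
      exact dvd_trans (pow_dvd_pow p (Nat.le_add_right n (r + 1))) h2

theorem lam_curve {k : Type*} [Field k] [CharZero k] (s : ℕ) (hs : 2 ≤ s) (r : ℕ) (hr : 1 ≤ r) (g : k[X])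
    (hg : g.eval 0 = 1) : ¬ (X : k[X][X][X]) ^ (r + 1) ∣ Wt k r (taylor g (curve k s)) := by
  intro hd
  let χ : k[X][X] →+* k := (evalRingHom (0 : k)).comp (evalRingHom (1 : k[X]))
  let π : k[X][X][X] →+* k[X] := eval₂RingHom ((C : k →+* k[X]).comp χ) X
  have hC : ∀ a : k[X], π (Wt k r (C a)) = C (a.eval 0) := by
    intro a
    have : (π.comp (Wt k r)).comp (C : k[X] →+* k[X][X]) =
        (C : k →+* k[X]).comp (evalRingHom 0) := by
      apply Polynomial.ringHom_ext
      · intro c
        simp [π, χ, Wt]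
      · simp [π, χ, Wt]
    exact RingHom.congr_fun this a
  have hX : π (Wt k r X) = X ^ r := by simp [π, χ, Wt]
  have ht : taylor g (curve k s) = (X + C g) ^ (s - 1) - C ((X + 1) ^ s) := by
    simp [curve]
  have h1 : π (Wt k r (taylor g (curve k s))) = (X ^ r + 1) ^ (s - 1) - 1 := by
    rw [ht, map_sub, map_sub, map_pow, map_pow, map_add, map_add, hX, hC, hC, hg]
    simp
  have h2 : (X : k[X]) ^ (r + 1) ∣ (X ^ r + 1) ^ (s - 1) - 1 := by
    have h3 := map_dvd π hd
    rw [h1, map_pow] at h3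
    have h4 : π X = X := by simp [π]
    rw [h4] at h3
    exact h3
  rw [Polynomial.X_pow_dvd_iff] at h2
  have h5 := h2 r (Nat.lt_succ_self r)
  have h6 : ((X : k[X]) ^ r + 1) ^ (s - 1) = expand k r ((X + 1) ^ (s - 1)) := by
    simp
  have h7 : (((X : k[X]) ^ r + 1) ^ (s - 1)).coeff r = ((s - 1 : ℕ) : k) := by
    rw [h6]
    have h8 := coeff_expand_mul (R := k) (p := r) hr ((X + 1) ^ (s - 1)) 1
    rw [one_mul] at h8
    rw [h8, coeff_X_add_one_pow]
    simp
  rw [coeff_sub, h7, coeff_one] at h5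
  have hr0 : r ≠ 0 := by omega
  rw [if_neg hr0, sub_zero] at h5
  have h9 : s - 1 = 0 := by exact_mod_cast h5
  omega



/- part 7 -/

theorem phi_of_lam {k : Type*} [Field k] (s : ℕ) (hs : 2 ≤ s) (r : ℕ) (g : k[X])
    (hg : (X - 1) ^ r ∣ (X : k[X]) ^ s - g.comp (X ^ (s - 1) - 1)) (F : k[X][X]) (n : ℕ)
    (h : (X : k[X][X][X]) ^ n ∣ Wt k r (taylor g F)) : (X - 1) ^ n ∣ phi k s F := by
  obtain ⟨ξ, hξ⟩ : ∃ ξ : k[X], (X : k[X]) ^ (s - 1) - 1 = (X - 1) * ξ := by
    have := sub_dvd_pow_sub_pow (X : k[X]) 1 (s - 1)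
    rw [one_pow] at this
    exact this
  obtain ⟨τ, hτ⟩ := hg
  let ev : k[X][X][X] →+* k[X] :=
    Polynomial.eval₂RingHom (Polynomial.eval₂RingHom (Polynomial.compRingHom ξ) τ) (X - 1)
  have evX : ev X = X - 1 := by
    show Polynomial.eval₂ _ _ X = _
    exact Polynomial.eval₂_X _ _
  have evC : ∀ p : k[X][X], ev (C p) =
      Polynomial.eval₂ (Polynomial.compRingHom ξ) τ p := by
    intro p
    show Polynomial.eval₂ _ _ (C p) = _
    rw [Polynomial.eval₂_C]
    rfl
  have h1' : (ev.comp (Wt k r)).comp (C : k[X] →+* k[X][X]) =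
      Polynomial.compRingHom (X ^ (s - 1) - 1) := by
    apply Polynomial.ringHom_ext'
    · ext a
      simp only [RingHom.comp_apply, Wt, Polynomial.coe_eval₂RingHom, Polynomial.eval₂_C, evC,
        Polynomial.coe_compRingHom_apply, Polynomial.C_comp]
    · simp only [RingHom.comp_apply, Wt, Polynomial.coe_eval₂RingHom, Polynomial.eval₂_C,
        Polynomial.eval₂_X, map_mul, evX, evC, Polynomial.coe_compRingHom_apply,
        Polynomial.X_comp]
      exact hξ.symm
  have h1 : ∀ p : k[X], ev (Wt k r (C p)) = p.comp (X ^ (s - 1) - 1) := fun p =>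
    DFunLike.congr_fun h1' p
  have h2 : ev (Wt k r X) = (X - 1) ^ r * τ := by
    simp only [Wt, Polynomial.coe_eval₂RingHom, Polynomial.eval₂_X, map_mul, map_pow, evX, evC]
  have h3' : (ev.comp (Wt k r)).comp (Polynomial.compRingHom (X + C g)) = phi k s := by
    apply Polynomial.ringHom_ext'
    · apply RingHom.ext
      intro p
      simp only [RingHom.comp_apply, Polynomial.coe_compRingHom_apply, Polynomial.C_comp, h1,
        phi, Polynomial.coe_eval₂RingHom, Polynomial.eval₂_C]
    · simp only [RingHom.comp_apply, Polynomial.coe_compRingHom_apply, Polynomial.X_comp,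
        map_add, h1, h2, phi, Polynomial.coe_eval₂RingHom, Polynomial.eval₂_X]
      rw [← hτ]
      ring
  have h3 : ev (Wt k r (taylor g F)) = phi k s F := by
    rw [Polynomial.taylor_apply]
    exact DFunLike.congr_fun h3' F
  have h4 := map_dvd ev h
  rw [map_pow, evX, h3] at h4
  exact h4



/- part 8 -/

theorem exists_g {k : Type*} [Field k] [CharZero k] (s : ℕ) (hs : 2 ≤ s) (r : ℕ) :
    ∃ a : Fin r → k, (X - 1) ^ r ∣
      (X : k[X]) ^ s - (∑ i : Fin r, C (a i) * X ^ (i : ℕ)).comp (X ^ (s - 1) - 1) := by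
  induction r with
  | zero => exact ⟨fun i => i.elim0, by simp⟩
  | succ r ih =>
    obtain ⟨a, h1, h1e⟩ := ih
    obtain ⟨ξ, hξ⟩ : ∃ ξ : k[X], ξ = ∑ i ∈ Finset.range (s - 1), (X : k[X]) ^ i := ⟨_, rfl⟩
    have hfac : (X : k[X]) ^ (s - 1) - 1 = (X - 1) * ξ := by
      rw [hξ, mul_geom_sum]
    have hev : ξ.eval 1 = ((s - 1 : ℕ) : k) := by
      rw [hξ, eval_finset_sum]
      simp
    have hne : ((s - 1 : ℕ) : k) ≠ 0 := by
      have : s - 1 ≠ 0 := by omega
      exact_mod_cast this
    obtain ⟨ar, har⟩ : ∃ ar : k, ar = h1.eval 1 / ((s - 1 : ℕ) : k) ^ r := ⟨_, rfl⟩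
    refine ⟨Fin.snoc (α := fun _ => k) a ar, ?_⟩
    rw [Fin.sum_univ_castSucc]
    simp only [Fin.snoc_castSucc, Fin.snoc_last, Fin.val_castSucc, Fin.val_last]
    have key : (X : k[X]) ^ s - ((∑ i : Fin r, C (a i) * X ^ (i : ℕ)) + C ar * X ^ r).comp
        (X ^ (s - 1) - 1) = (X - 1) ^ r * (h1 - C ar * ξ ^ r) := by
      rw [add_comp, mul_comp, C_comp, pow_comp, X_comp]
      have : (X : k[X]) ^ s - ((∑ i : Fin r, C (a i) * X ^ (i : ℕ)).comp (X ^ (s - 1) - 1)
          + C ar * (X ^ (s - 1) - 1) ^ r) =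
          (X ^ s - (∑ i : Fin r, C (a i) * X ^ (i : ℕ)).comp (X ^ (s - 1) - 1))
          - C ar * (X ^ (s - 1) - 1) ^ r := by ring
      rw [this, h1e, hfac, mul_pow]
      ring
    rw [key, pow_succ]
    apply mul_dvd_mul_left
    have : (X : k[X]) - 1 = X - C 1 := by simp
    rw [this, dvd_iff_isRoot, IsRoot, eval_sub, eval_mul, eval_C, eval_pow, hev, har]
    field_simp
    simp



/- part 9 -/

theorem lam_aux {A B : Type*} [CommRing A] [CommRing B] (G : A →+* B) (S : Set A) (b : B) (m : ℕ)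
    (F : A) (h : F ∈ (Ideal.span S) ^ m) (hS : ∀ a ∈ S, b ∣ G a) : b ^ m ∣ G F := by
  have h1 : Ideal.map G (Ideal.span S) ≤ Ideal.span {b} := by
    rw [Ideal.map_span, Ideal.span_le]
    rintro _ ⟨a, ha, rfl⟩
    rw [SetLike.mem_coe, Ideal.mem_span_singleton]
    exact hS a ha
  have h2 : G F ∈ Ideal.map G ((Ideal.span S) ^ m) := Ideal.mem_map_of_mem G h
  rw [Ideal.map_pow] at h2
  have h3 := Ideal.pow_right_mono h1 m h2
  rw [Ideal.span_singleton_pow, Ideal.mem_span_singleton] at h3
  exact h3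

theorem lam_of_mem {k : Type*} [Field k] (r m : ℕ) (g : k[X]) (F : k[X][X])
    (h : F ∈ (Ideal.span {(X : k[X][X]) - C g, C (X ^ r)}) ^ m) :
    (X : k[X][X][X]) ^ (r * m) ∣ Wt k r (taylor g F) := by
  have hGF : ∀ F : k[X][X], ((Wt k r).comp
      ((taylorAlgHom g : k[X][X] →ₐ[k[X]] k[X][X]) : k[X][X] →+* k[X][X])) F =
      Wt k r (taylor g F) := fun F => rfl
  rw [pow_mul, ← hGF]
  refine lam_aux _ ({(X : k[X][X]) - C g, (C ((X : k[X]) ^ r) : k[X][X])} : Set k[X][X]) ((X : k[X][X][X]) ^ r) m F h ?_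
  intro a ha
  simp only [Set.mem_insert_iff, Set.mem_singleton_iff] at ha
  rcases ha with rfl | rfl
  · rw [hGF, map_sub, taylor_X, taylor_C, add_sub_cancel_right]
    unfold Wt
    rw [coe_eval₂RingHom, eval₂_X]
    exact Dvd.intro _ rfl
  · rw [hGF, taylor_C]
    unfold Wt
    rw [coe_eval₂RingHom, eval₂_C, map_pow, coe_eval₂RingHom, eval₂_X]
    have h9 : ((X : k[X][X][X]) * C (C (X : k[X]))) ^ r = (X : k[X][X][X]) ^ r * (C (C (X : k[X]))) ^ r :=
      mul_pow (X : k[X][X][X]) (C (C (X : k[X]))) r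
    exact Dvd.intro _ h9.symm



/- part 10 -/

theorem taylor_small {A : Type*} [CommRing A] (G : A[X]) (e : A) :
    ∃ K : A[X], taylor e G = G + derivative G * C e + K * (C e) ^ 2 := by
  obtain ⟨K, hK⟩ := Polynomial.binomExpansion (G.map (C : A →+* A[X])) (X : A[X]) (C e)
  refine ⟨K, ?_⟩
  have h1 : (G.map (C : A →+* A[X])).eval (X + C e) = taylor e G := by
    rw [taylor_apply, eval_map]; rfl
  have h2 : (G.map (C : A →+* A[X])).eval X = G := by
    rw [eval_map, eval₂_C_X]
  have h3 : (derivative (G.map (C : A →+* A[X]))).eval X = derivative G := by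
    rw [derivative_map, eval_map, eval₂_C_X]
  rw [h1, h2, h3] at hK
  exact hK

theorem derivative_tay {A : Type*} [CommRing A] (G : A[X]) (g : A) :
    derivative (taylor g G) = taylor g (derivative G) := by
  rw [taylor_apply, taylor_apply, derivative_comp]
  simp

theorem eps_coeff {k : Type*} [Field k] (g0 δ : k[X]) (F0 F1 : k[X][X]) (F2 : k[X][X][X]) (i n : ℕ)
    (h : ((taylor (g0.map (C : k →+* k[X]) + C (X : k[X]) * δ.map (C : k →+* k[X]))
      (F0.map (mapRingHom (C : k →+* k[X])) + C (C (X : k[X])) * F1.map (mapRingHom (C : k →+* k[X]))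
        + C (C ((X : k[X]) ^ 2)) * F2)).coeff i).coeff n = 0) :
    ((taylor g0 F0).coeff i).coeff n = 0 ∧
      ((taylor g0 (F1 + C δ * derivative F0)).coeff i).coeff n = 0 := by
  set g0' : k[X][X] := g0.map (C : k →+* k[X]) with hg0'
  set δ' : k[X][X] := δ.map (C : k →+* k[X]) with hδ'
  set ρ : k[X] →+* k[X][X] := mapRingHom (C : k →+* k[X]) with hρ
  set F0' : k[X][X][X] := F0.map ρ with hF0'
  set F1' : k[X][X][X] := F1.map ρ with hF1'
  have hg : ρ g0 = g0' := rfl
  have hd : ρ δ = δ' := rfl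
  set F : k[X][X][X] := F0' + C (C (X : k[X])) * F1' + C (C ((X : k[X]) ^ 2)) * F2 with hF
  have e1 : taylor (g0' + C (X : k[X]) * δ') F = taylor (C (X : k[X]) * δ') (taylor g0' F) := by
    rw [taylor_taylor, add_comm]
  obtain ⟨K, hK⟩ := taylor_small (taylor g0' F) (C (X : k[X]) * δ')
  have e2 : taylor g0' F = taylor g0' F0' + C (C (X : k[X])) * taylor g0' F1' +
      C (C ((X : k[X]) ^ 2)) * taylor g0' F2 := by
    rw [hF, map_add, map_add, taylor_mul, taylor_mul, taylor_C, taylor_C]
  have t0 : (taylor g0 F0).map ρ = taylor g0' F0' := by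
    rw [Polynomial.map_taylor, hg]
  have t1 : (taylor g0 (F1 + C δ * derivative F0)).map ρ =
      taylor g0' F1' + C δ' * derivative (taylor g0' F0') := by
    rw [map_add, taylor_mul, taylor_C, Polynomial.map_add, Polynomial.map_mul, Polynomial.map_C,
      Polynomial.map_taylor, Polynomial.map_taylor, hg, hd, derivative_tay, ← derivative_map]
  have e3 : ∃ W : k[X][X][X], taylor (g0' + C (X : k[X]) * δ') F =
      (taylor g0 F0).map ρ + C (C (X : k[X])) * (taylor g0 (F1 + C δ * derivative F0)).map ρ +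
        C (C ((X : k[X]) ^ 2)) * W := by
    refine ⟨taylor g0' F2 + derivative (taylor g0' F1') * C δ' +
      C (C (X : k[X])) * derivative (taylor g0' F2) * C δ' + K * C δ' ^ 2, ?_⟩
    rw [e1, hK, e2, t0, t1]
    simp only [derivative_add, derivative_mul, derivative_C]
    simp only [map_mul, map_pow]
    ring
  obtain ⟨W, hW⟩ := e3
  rw [hW] at h
  set a0 : k := ((taylor g0 F0).coeff i).coeff n with ha0
  set a1 : k := ((taylor g0 (F1 + C δ * derivative F0)).coeff i).coeff n with ha1
  have c0 : (((taylor g0 F0).map ρ).coeff i).coeff n = C a0 := by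
    rw [Polynomial.coeff_map, hρ, coe_mapRingHom, Polynomial.coeff_map]
  have c1 : (((taylor g0 (F1 + C δ * derivative F0)).map ρ).coeff i).coeff n = C a1 := by
    rw [Polynomial.coeff_map, hρ, coe_mapRingHom, Polynomial.coeff_map]
  have h' : C a0 + X * C a1 + X ^ 2 * ((W.coeff i).coeff n) = 0 := by
    rw [← c0, ← c1, ← h]
    simp only [Polynomial.coeff_add, Polynomial.coeff_C_mul]
  have r0 := congrArg (fun p : k[X] => p.coeff 0) h'
  have r1 := congrArg (fun p : k[X] => p.coeff 1) h'
  have q0 : (X ^ 2 * ((W.coeff i).coeff n) : k[X]).coeff 0 = 0 := by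
    rw [Polynomial.coeff_X_pow_mul']; simp
  have q1 : (X ^ 2 * ((W.coeff i).coeff n) : k[X]).coeff 1 = 0 := by
    rw [Polynomial.coeff_X_pow_mul']; simp
  simp only [Polynomial.coeff_add, q0, q1] at r0 r1
  refine ⟨?_, ?_⟩
  · simpa using r0
  · simpa [Polynomial.coeff_C, Polynomial.coeff_X_mul] using r1



/- part 11 -/

theorem open_lemma {k : Type*} [Field k] {σ ι κ : Type*} [Fintype ι] [DecidableEq ι] [Fintype κ]
    (M : Matrix κ ι (MvPolynomial σ k)) (a0 : σ → k)
    (h : ∀ x : ι → k, (M.map (MvPolynomial.eval a0)).mulVec x = 0 → x = 0) :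
    ∃ P : MvPolynomial σ k, P ≠ 0 ∧ ∀ a : σ → k, MvPolynomial.eval a P ≠ 0 →
      ∀ x : ι → k, (M.map (MvPolynomial.eval a)).mulVec x = 0 → x = 0 := by
  classical
  set A0 : Matrix κ ι k := M.map (MvPolynomial.eval a0) with hA0
  have hker : LinearMap.ker (Matrix.mulVecLin A0) = ⊥ := by
    rw [LinearMap.ker_eq_bot']
    intro x hx
    exact h x hx
  obtain ⟨g, hg⟩ := LinearMap.exists_leftInverse_of_injective _ hker
  set L : Matrix ι κ k := LinearMap.toMatrix' g with hL
  have hLA : L * A0 = 1 := by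
    have h1 : LinearMap.toMatrix' (g ∘ₗ Matrix.mulVecLin A0) = L * A0 := by
      rw [LinearMap.toMatrix'_comp]
      congr 1
      rw [← Matrix.toLin'_apply']
      exact LinearMap.toMatrix'_toLin' A0
    rw [← h1, hg, LinearMap.toMatrix'_id]
  have hev : ∀ a : σ → k, MvPolynomial.eval a (Matrix.det (L.map MvPolynomial.C * M))
      = Matrix.det (L * M.map (MvPolynomial.eval a)) := by
    intro a
    rw [RingHom.map_det]
    congr 1
    ext i j
    rw [RingHom.mapMatrix_apply, Matrix.map_apply]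
    erw [Matrix.mul_apply]
    rw [Matrix.mul_apply, map_sum]
    refine Finset.sum_congr rfl fun x _ => ?_
    rw [map_mul, Matrix.map_apply, Matrix.map_apply, MvPolynomial.eval_C]
  refine ⟨Matrix.det (L.map MvPolynomial.C * M), ?_, ?_⟩
  · intro h0
    have h1 := hev a0
    rw [h0, ← hA0, hLA] at h1
    simp at h1
  · intro a ha x hx
    rw [hev a] at ha
    have h2 : (L * M.map (MvPolynomial.eval a)).mulVec x = 0 := by
      rw [← Matrix.mulVec_mulVec, hx, Matrix.mulVec_zero]
    exact Matrix.eq_zero_of_mulVec_eq_zero ha h2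



/- part 12 -/

theorem line_lemma {k : Type*} [Field k] [Infinite k] {ι κ : Type*} [Fintype ι] [DecidableEq ι] [Fintype κ]
    (N : Matrix κ ι k[X]) (h : ∀ x : ι → k[X], N.mulVec x = 0 → x = 0) :
    ∃ ε : k, ∀ x : ι → k, (N.map (fun p => p.eval ε)).mulVec x = 0 → x = 0 := by
  classical
  let K := FractionRing k[X]
  let NK : Matrix κ ι K := N.map (algebraMap k[X] K)
  have hker : LinearMap.ker (Matrix.toLin' NK) = ⊥ := by
    rw [LinearMap.ker_eq_bot']
    intro x hx
    rw [Matrix.toLin'_apply] at hx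
    obtain ⟨b, hb⟩ := IsLocalization.exist_integer_multiples_of_finite (nonZeroDivisors k[X]) x
    choose y hy using hb
    have hy' : ∀ i, algebraMap k[X] K (y i) = algebraMap k[X] K b * x i := by
      intro i
      rw [hy i, Algebra.smul_def]
    have h1 : N.mulVec y = 0 := by
      ext1 j
      apply IsFractionRing.injective k[X] K
      have h2 : (NK.mulVec x) j = 0 := by rw [hx]; rfl
      simp only [Matrix.mulVec, dotProduct] at h2 ⊢
      rw [map_sum]
      simp only [map_mul, hy', Pi.zero_apply, map_zero]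
      have h3 : ∀ i, algebraMap k[X] K (N j i) * (algebraMap k[X] K b * x i) =
          algebraMap k[X] K b * (NK j i * x i) := by
        intro i
        show _ = algebraMap k[X] K b * (algebraMap k[X] K (N j i) * x i)
        ring
      simp only [h3]
      rw [← Finset.mul_sum, h2, mul_zero]
    have h4 := h y h1
    funext i
    have h5 := hy' i
    rw [h4] at h5
    simp only [Pi.zero_apply, map_zero] at h5
    have h6 : algebraMap k[X] K b ≠ 0 := by
      intro h7
      have h8 := (IsFractionRing.injective k[X] K) (h7.trans (map_zero _).symm)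
      exact nonZeroDivisors.coe_ne_zero b h8
    exact (mul_eq_zero.1 h5.symm).resolve_left h6
  obtain ⟨L, hL⟩ := LinearMap.exists_leftInverse_of_injective (Matrix.toLin' NK) hker
  let LM : Matrix ι κ K := LinearMap.toMatrix' L
  have hLM : LM * NK = 1 := by
    have h1 := congrArg LinearMap.toMatrix' hL
    rw [LinearMap.toMatrix'_comp, LinearMap.toMatrix'_toLin', LinearMap.toMatrix'_id] at h1
    exact h1
  obtain ⟨q, hq⟩ := IsLocalization.exist_integer_multiples_of_finite (nonZeroDivisors k[X])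
    (fun p : ι × κ => LM p.1 p.2)
  choose L' hL' using hq
  let L'' : Matrix ι κ k[X] := fun i j => L' (i, j)
  have hL'' : ∀ i j, algebraMap k[X] K (L'' i j) = algebraMap k[X] K q * LM i j := by
    intro i j
    show algebraMap k[X] K (L' (i, j)) = _
    rw [hL' (i, j), Algebra.smul_def]
  have hmul : L'' * N = (q : k[X]) • (1 : Matrix ι ι k[X]) := by
    ext1 i j
    apply IsFractionRing.injective k[X] K
    have h2 : (LM * NK) i j = (1 : Matrix ι ι K) i j := by rw [hLM]
    rw [Matrix.mul_apply] at h2 ⊢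
    rw [map_sum]
    have h3 : ∀ l, algebraMap k[X] K (L'' i l * N l j) =
        algebraMap k[X] K q * (LM i l * NK l j) := by
      intro l
      rw [map_mul, hL'']
      show _ = algebraMap k[X] K q * (LM i l * algebraMap k[X] K (N l j))
      ring
    simp only [h3]
    rw [← Finset.mul_sum, h2, Matrix.smul_apply, smul_eq_mul, map_mul]
    congr 1
    by_cases hij : i = j
    · subst hij
      simp
    · simp [Matrix.one_apply_ne hij]
  have hq0 : (q : k[X]) ≠ 0 := nonZeroDivisors.coe_ne_zero q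
  have hε : ∃ ε : k, (q : k[X]).eval ε ≠ 0 := by
    by_contra hcon
    push Not at hcon
    exact hq0 (Polynomial.funext (fun r => by rw [hcon r, Polynomial.eval_zero]))
  obtain ⟨ε, hε⟩ := hε
  refine ⟨ε, fun x hx => ?_⟩
  have h1 : (L''.map (fun p => p.eval ε)) * (N.map (fun p => p.eval ε)) =
      ((q : k[X]).eval ε) • (1 : Matrix ι ι k) := by
    have h2 := congrArg (fun A : Matrix ι ι k[X] => A.map (Polynomial.evalRingHom ε)) hmul
    simp only [Matrix.map_mul] at h2
    have h3 : (((q : k[X]) • (1 : Matrix ι ι k[X])).map (Polynomial.evalRingHom ε)) =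
        ((q : k[X]).eval ε) • (1 : Matrix ι ι k) := by
      ext1 i j
      by_cases hij : i = j
      · subst hij
        simp
      · simp [Matrix.one_apply_ne hij]
    rw [h3] at h2
    exact h2
  have h4 : ((q : k[X]).eval ε) • x = 0 := by
    have h5 : ((L''.map (fun p => p.eval ε)) * (N.map (fun p => p.eval ε))).mulVec x =
        ((q : k[X]).eval ε) • x := by
      rw [h1, Matrix.smul_mulVec, Matrix.one_mulVec]
    rw [← h5, ← Matrix.mulVec_mulVec, hx, Matrix.mulVec_zero]
  exact (smul_eq_zero.1 h4).resolve_left hε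



/- part 13 -/

theorem wt_mono562 {A : Type*} [CommRing A] (r i n : ℕ) (a : A) :
    Wt A r (monomial i (monomial n a)) = X ^ (n + r * i) * C (monomial i (monomial n a)) := by
  rw [Wt, Polynomial.coe_eval₂RingHom, Polynomial.eval₂_monomial,
    Polynomial.coe_eval₂RingHom, Polynomial.eval₂_monomial]
  rw [← Polynomial.C_mul_X_pow_eq_monomial, ← Polynomial.C_mul_X_pow_eq_monomial]
  simp only [RingHom.comp_apply, map_mul, map_pow, mul_pow]
  ring

theorem wt_coeff562 {A : Type*} [CommRing A] (r : ℕ) (G : A[X][X]) (j i n : ℕ) :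
    (((Wt A r G).coeff j).coeff i).coeff n = if n + r * i = j then (G.coeff i).coeff n else 0 := by
  induction G using Polynomial.induction_on' with
  | add p q hp hq =>
    rw [map_add, Polynomial.coeff_add, Polynomial.coeff_add, Polynomial.coeff_add, hp, hq,
      Polynomial.coeff_add, Polynomial.coeff_add]
    split_ifs <;> simp
  | monomial i' b =>
    induction b using Polynomial.induction_on' with
    | add p q hp hq =>
      rw [map_add, map_add, Polynomial.coeff_add, Polynomial.coeff_add, Polynomial.coeff_add, hp, hq,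
        Polynomial.coeff_add, Polynomial.coeff_add]
      split_ifs <;> simp
    | monomial n' a =>
      rw [wt_mono562, Polynomial.coeff_X_pow_mul', Polynomial.coeff_C]
      by_cases hi : i' = i
      · by_cases hn : n' = n
        · subst hi hn
          by_cases h : n' + r * i' = j
          · subst h
            simp
          · rw [if_neg h]
            split_ifs with h1 h2
            · exact absurd (by omega) h
            · simp
            · simp
        · have h0 : ((monomial i' (monomial n' a) : A[X][X]).coeff i).coeff n = 0 := by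
            rw [Polynomial.coeff_monomial, if_pos hi, Polynomial.coeff_monomial, if_neg hn]
          rw [h0]
          split_ifs <;> simp [h0]
      · have h0 : ((monomial i' (monomial n' a) : A[X][X]).coeff i).coeff n = 0 := by
          rw [Polynomial.coeff_monomial, if_neg hi]; simp
        rw [h0]
        split_ifs <;> simp [h0]

theorem wt_dvd_iff {A : Type*} [CommRing A] (r N : ℕ) (G : A[X][X]) :
    (X : A[X][X][X]) ^ N ∣ Wt A r G ↔ ∀ i n, n + r * i < N → (G.coeff i).coeff n = 0 := by
  rw [Polynomial.X_pow_dvd_iff]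
  constructor
  · intro h i n hN
    have h1 := wt_coeff562 r G (n + r * i) i n
    rw [h _ hN, if_pos rfl] at h1
    simpa using h1.symm
  · intro h d hd
    ext i n
    rw [wt_coeff562]
    split_ifs with h1
    · rw [h i n (by omega)]; simp
    · simp



/- part 14 -/

theorem taylor_sum_coeff {A : Type*} [CommRing A] {ι : Type*} [Fintype ι] (p q : ι → ℕ) (f : ι → A)
    (g : A[X]) (i n : ℕ) :
    ((taylor g (∑ j, C (C (f j) * X ^ (p j)) * (X : A[X][X]) ^ (q j))).coeff i).coeff n
      = ∑ j, ((((q j).choose i : A[X])) * (g ^ (q j - i) * X ^ (p j))).coeff n * f j := by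
  rw [map_sum, Polynomial.finset_sum_coeff, Polynomial.finset_sum_coeff]
  refine Finset.sum_congr rfl fun j _ => ?_
  rw [taylor_mul, taylor_C, taylor_X_pow, Polynomial.coeff_C_mul, Polynomial.coeff_X_add_C_pow]
  have h : C (f j) * X ^ (p j) * (g ^ (q j - i) * (((q j).choose i : ℕ) : A[X])) =
      C (f j) * ((((q j).choose i : ℕ) : A[X]) * (g ^ (q j - i) * X ^ (p j))) := by ring
  rw [h, Polynomial.coeff_C_mul, mul_comm]


/- part 15 -/

theorem dh_deg {k : Type*} [Field k] (d : ℕ) (Φ : MvPolynomial (Fin 3) k) (h : Φ.IsHomogeneous d)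
    (m : Fin 3 →₀ ℕ) (hm : MvPolynomial.coeff m Φ ≠ 0) : m 0 + m 1 + m 2 = d := by
  have h1 := h hm
  rw [Finsupp.weight_apply, Finsupp.sum_fintype _ _ (by simp), Fin.sum_univ_three] at h1
  simpa using h1

theorem dh_sum {k : Type*} [Field k] (Φ : MvPolynomial (Fin 3) k) :
    MvPolynomial.aeval ![(1 : k[X][X]), C X, X] Φ =
      ∑ m ∈ Φ.support, monomial (m 2) (monomial (m 1) (MvPolynomial.coeff m Φ)) := by
  rw [MvPolynomial.aeval_def, MvPolynomial.eval₂_eq']
  refine Finset.sum_congr rfl fun m _ => ?_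
  rw [Fin.prod_univ_three]
  simp only [Matrix.cons_val_zero, Matrix.cons_val_one, Matrix.cons_val, one_pow, one_mul]
  rw [← mul_assoc, ← C_pow]
  have h1 : (algebraMap k k[X][X]) (MvPolynomial.coeff m Φ) = C (C (MvPolynomial.coeff m Φ)) := rfl
  rw [h1, ← C_mul, C_mul_X_pow_eq_monomial, C_mul_X_pow_eq_monomial]

theorem dh_coeff {k : Type*} [Field k] (Φ : MvPolynomial (Fin 3) k) (i j : ℕ) :
    ((MvPolynomial.aeval ![(1 : k[X][X]), C X, X] Φ).coeff j).coeff i =
      ∑ m ∈ Φ.support, if m 2 = j then (if m 1 = i then MvPolynomial.coeff m Φ else 0) else 0 := by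
  rw [dh_sum, finsetSum_coeff, finsetSum_coeff]
  refine Finset.sum_congr rfl fun m _ => ?_
  rw [coeff_monomial]
  split_ifs with h1 h2
  · rw [coeff_monomial, if_pos h2]
  · rw [coeff_monomial, if_neg h2]
  · rw [coeff_zero]

theorem dehom_degLE {k : Type*} [Field k] (d : ℕ) (Φ : MvPolynomial (Fin 3) k) (h : Φ.IsHomogeneous d) :
    DegLE d (MvPolynomial.aeval ![(1 : k[X][X]), C X, X] Φ) := by
  intro j i hne
  rw [dh_coeff] at hne
  obtain ⟨m, hm, hm2⟩ := Finset.exists_ne_zero_of_sum_ne_zero hne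
  have hd := dh_deg d Φ h m (MvPolynomial.mem_support_iff.1 hm)
  by_cases h1 : m 2 = j
  · by_cases h2 : m 1 = i
    · omega
    · rw [if_pos h1, if_neg h2] at hm2
      exact absurd rfl hm2
  · rw [if_neg h1] at hm2
    exact absurd rfl hm2

theorem dehom_injective {k : Type*} [Field k] (d : ℕ) (Φ : MvPolynomial (Fin 3) k) (h : Φ.IsHomogeneous d)
    (h0 : MvPolynomial.aeval ![(1 : k[X][X]), C X, X] Φ = 0) : Φ = 0 := by
  ext m
  rw [MvPolynomial.coeff_zero]
  by_contra hm
  have hd := dh_deg d Φ h m hm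
  have h1 := dh_coeff Φ (m 1) (m 2)
  rw [h0, coeff_zero, coeff_zero, Finset.sum_eq_single m] at h1
  · rw [if_pos rfl, if_pos rfl] at h1
    exact hm h1.symm
  · intro m' hm' hne
    have hd' := dh_deg d Φ h m' (MvPolynomial.mem_support_iff.1 hm')
    by_cases h2 : m' 2 = m 2
    · by_cases h3 : m' 1 = m 1
      · exfalso
        apply hne
        ext a
        fin_cases a
        · show m' 0 = m 0
          omega
        · exact h3
        · exact h2
      · rw [if_pos h2, if_neg h3]
    · rw [if_neg h2]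
  · intro hm'
    exact absurd (MvPolynomial.mem_support_iff.2 hm) hm'



/- part 16 -/

theorem shift_degLE {k : Type*} [Field k] (d : ℕ) (b : k) (F : k[X][X]) (h : DegLE d F) :
    DegLE d (F.map (Polynomial.compRingHom (X + C b))) := by
  intro j i hji
  rw [Polynomial.coeff_map, Polynomial.coe_compRingHom_apply] at hji
  have hp : F.coeff j ≠ 0 := by
    intro h0
    rw [h0] at hji
    simp at hji
  have h1 : i ≤ ((F.coeff j).comp (X + C b)).natDegree := Polynomial.le_natDegree_of_ne_zero hji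
  have h2 : ((F.coeff j).comp (X + C b)).natDegree ≤ (F.coeff j).natDegree := by
    have := Polynomial.natDegree_comp_le (p := F.coeff j) (q := X + C b)
    rwa [Polynomial.natDegree_X_add_C, mul_one] at this
  have h3 := h j (F.coeff j).natDegree (by
    rw [Polynomial.coeff_natDegree]
    exact Polynomial.leadingCoeff_ne_zero.mpr hp)
  omega

theorem shift_injective {k : Type*} [Field k] (b : k) (F : k[X][X])
    (h : F.map (Polynomial.compRingHom (X + C b)) = 0) : F = 0 := by
  have hinj : Function.Injective (Polynomial.compRingHom (X + C b : k[X])) := by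
    intro p q hpq
    rw [Polynomial.coe_compRingHom_apply, Polynomial.coe_compRingHom_apply] at hpq
    have := congrArg (fun r : k[X] => r.comp (X - C b)) hpq
    simpa [Polynomial.comp_assoc] using this
  exact (Polynomial.map_eq_zero_iff hinj).mp h

theorem shift_mem {k : Type*} [Field k] (r m : ℕ) (b : k) (a : Fin r → k) (F : k[X][X])
    (h : F ∈ (Ideal.span {(X : k[X][X]) - C (∑ i : Fin r, C (a i) * (X - C b) ^ (i : ℕ)), C ((X - C b) ^ r)}) ^ m) :
    F.map (Polynomial.compRingHom (X + C b)) ∈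
      (Ideal.span {(X : k[X][X]) - C (∑ i : Fin r, C (a i) * X ^ (i : ℕ)), C (X ^ r)}) ^ m := by
  have h1 := Ideal.mem_map_of_mem (Polynomial.mapRingHom (Polynomial.compRingHom (X + C b : k[X]))) h
  rw [Ideal.map_pow, Ideal.map_span, Set.image_pair] at h1
  have e1 : Polynomial.mapRingHom (Polynomial.compRingHom (X + C b : k[X]))
      ((X : k[X][X]) - C (∑ i : Fin r, C (a i) * (X - C b) ^ (i : ℕ)))
      = (X : k[X][X]) - C (∑ i : Fin r, C (a i) * X ^ (i : ℕ)) := by
    rw [map_sub, Polynomial.coe_mapRingHom, Polynomial.map_X, Polynomial.map_C, map_sum]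
    congr 3
    funext i
    rw [map_mul, map_pow, map_sub, Polynomial.coe_compRingHom_apply, Polynomial.coe_compRingHom_apply,
      Polynomial.coe_compRingHom_apply]
    simp
  have e2 : Polynomial.mapRingHom (Polynomial.compRingHom (X + C b : k[X])) (C ((X - C b) ^ r) : k[X][X])
      = C (X ^ r) := by
    rw [Polynomial.coe_mapRingHom, Polynomial.map_C, map_pow, map_sub, Polynomial.coe_compRingHom_apply,
      Polynomial.coe_compRingHom_apply]
    simp
  rw [e1, e2] at h1
  exact h1



/- part 20 -/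

theorem fewnomial {k : Type*} [Field k] [CharZero k] (f : k[X]) (N : ℕ) (hcard : f.support.card ≤ N)
    (hd : (X - 1) ^ N ∣ f) : f = 0 := by
  induction N generalizing f with
  | zero =>
    have h0 : f.support.card = 0 := Nat.le_zero.mp hcard
    exact Polynomial.support_eq_empty.mp (Finset.card_eq_zero.mp h0)
  | succ N ih =>
    by_contra hf
    obtain ⟨a, ha⟩ : f.support.Nonempty := Polynomial.support_nonempty.mpr hf
    have hcoef : ∀ n : ℕ, (X * derivative f - C (a : k) * f).coeff n = ((n : k) - a) * f.coeff n := by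
      intro n
      rw [Polynomial.coeff_sub, Polynomial.coeff_C_mul]
      cases n with
      | zero => simp
      | succ n =>
        rw [Polynomial.coeff_X_mul, Polynomial.coeff_derivative]
        push_cast
        ring
    have hsub : (X * derivative f - C (a : k) * f).support ⊆ f.support.erase a := by
      intro n hn
      rw [Polynomial.mem_support_iff, hcoef] at hn
      rw [Finset.mem_erase, Polynomial.mem_support_iff]
      refine ⟨?_, right_ne_zero_of_mul hn⟩
      rintro rfl
      exact hn (by rw [sub_self, zero_mul])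
    have hc : (X * derivative f - C (a : k) * f).support.card ≤ N := by
      have h1 := Finset.card_le_card hsub
      rw [Finset.card_erase_of_mem ha] at h1
      omega
    have hdv : (X - 1 : k[X]) ^ N ∣ X * derivative f - C (a : k) * f := by
      have h1 : (X - 1 : k[X]) ^ (N + 1 - 1) ∣ derivative f :=
        Polynomial.pow_sub_one_dvd_derivative_of_pow_dvd hd
      rw [Nat.add_sub_cancel] at h1
      have h2 : (X - 1 : k[X]) ^ N ∣ f := (pow_dvd_pow _ (Nat.le_succ N)).trans hd
      exact dvd_sub (h1.mul_left _) (h2.mul_left _)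
    have hz := ih _ hc hdv
    have hmono : f = C (f.coeff a) * X ^ a := by
      ext n
      rw [Polynomial.coeff_C_mul, Polynomial.coeff_X_pow]
      by_cases hn : n = a
      · subst hn; simp
      · rw [if_neg hn, mul_zero]
        have h1 := hcoef n
        rw [hz, Polynomial.coeff_zero] at h1
        rcases mul_eq_zero.mp h1.symm with h2 | h2
        · exact absurd (Nat.cast_injective (R := k) (sub_eq_zero.mp h2)) hn
        · exact h2
    have hev : f.eval 1 = 0 := by
      have h1 : (X - 1 : k[X]) ∣ f := (dvd_pow_self _ (Nat.succ_ne_zero N)).trans hd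
      obtain ⟨g, hg⟩ := h1
      rw [hg]; simp
    rw [hmono] at hev
    simp only [Polynomial.eval_mul, Polynomial.eval_C, Polynomial.eval_pow, Polynomial.eval_X,
      one_pow, mul_one] at hev
    exact (Polynomial.mem_support_iff.mp ha) hev




/- part 21 -/

/-- all exponents occurring in `phi F` are of the form `(s-1)*n + j` with `j ≤ n ≤ d` -/
theorem phi_support {k : Type*} [Field k] (s : ℕ) (hs : 1 ≤ s) (d : ℕ) (F : k[X][X]) (h : DegLE d F) :
    ∀ t ∈ (phi k s F).support, ∃ n j, j ≤ n ∧ n ≤ d ∧ t = (s - 1) * n + j := by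
  classical
  intro t ht
  rw [mem_support_iff] at ht
  have key : phi k s F = ∑ j ∈ Finset.range (F.natDegree + 1),
      ∑ n ∈ Finset.range (((F.coeff j).comp (X - 1)).natDegree + 1),
        monomial ((s - 1) * (n + j) + j) (((F.coeff j).comp (X - 1)).coeff n) := by
    unfold phi
    rw [coe_eval₂RingHom, eval₂_eq_sum_range]
    refine Finset.sum_congr rfl fun j _ => ?_
    have e1 : (compRingHom (X ^ (s - 1) - 1 : k[X])) (F.coeff j)
        = ((F.coeff j).comp (X - 1)).comp (X ^ (s - 1)) := by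
      rw [comp_assoc]
      simp [coe_compRingHom]
    rw [e1, comp, eval₂_eq_sum_range, Finset.sum_mul]
    refine Finset.sum_congr rfl fun n _ => ?_
    rw [← C_mul_X_pow_eq_monomial, mul_assoc, ← pow_mul, ← pow_mul, ← pow_add]
    congr 2
    obtain ⟨r, rfl⟩ : ∃ r, s = r + 1 := ⟨s - 1, by omega⟩
    simp only [Nat.add_sub_cancel]
    ring
  rw [key, finsetSum_coeff] at ht
  obtain ⟨j, _, hj⟩ := Finset.exists_ne_zero_of_sum_ne_zero ht
  rw [finsetSum_coeff] at hj
  obtain ⟨n, _, hn⟩ := Finset.exists_ne_zero_of_sum_ne_zero hj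
  rw [coeff_monomial] at hn
  split_ifs at hn with hh
  · refine ⟨n + j, j, by omega, ?_, hh.symm⟩
    have h1 : n ≤ ((F.coeff j).comp (X - 1)).natDegree := le_natDegree_of_ne_zero hn
    have h2 : ((F.coeff j).comp (X - 1)).natDegree ≤ (F.coeff j).natDegree := by
      refine natDegree_comp_le.trans ?_
      have : (X - 1 : k[X]).natDegree ≤ 1 := by
        have := natDegree_X_sub_C_le (1 : k)
        simpa using this
      calc (F.coeff j).natDegree * (X - 1 : k[X]).natDegree ≤ (F.coeff j).natDegree * 1 :=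
            Nat.mul_le_mul_left _ this
        _ = _ := mul_one _
    have h0 : F.coeff j ≠ 0 := by
      intro h0
      apply hn
      rw [h0]
      simp
    have h3 := h j (F.coeff j).natDegree (by
      rw [coeff_natDegree]
      exact leadingCoeff_ne_zero.mpr h0)
    omega
  · exact absurd rfl hn



/- part 22 -/

theorem card_aux (m : ℕ) : (Finset.sigma (Finset.range m) (fun n => Finset.range (m - n))).card =
    (m + 1) * m / 2 := by
  rw [Finset.card_sigma]
  simp only [Finset.card_range]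
  have h : ∑ n ∈ Finset.range m, (m - n) = ∑ n ∈ Finset.range (m + 1), n := by
    rw [← Finset.sum_range_reflect, Finset.sum_range_succ']
    simp only [add_zero]
    refine Finset.sum_congr rfl fun n hn => ?_
    rw [Finset.mem_range] at hn
    omega
  rw [h, Finset.sum_range_id]
  simp

theorem card_semigroup (s d : ℕ) (hs : 3 ≤ s) (hd : s - 2 ≤ d) (T : Finset ℕ)
    (hT : ∀ t ∈ T, ∃ n j, j ≤ n ∧ n ≤ d ∧ t = (s - 1) * n + j) :
    T.card + (s - 1) * (s - 2) / 2 ≤ s * d + 1 := by
  classical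
  obtain ⟨r, rfl⟩ : ∃ r, s = r + 3 := ⟨s - 3, by omega⟩
  have e1 : r + 3 - 1 = r + 2 := by omega
  have e2 : r + 3 - 2 = r + 1 := by omega
  rw [e1] at hT ⊢
  rw [e2] at hd ⊢
  set P : Finset (Σ _ : ℕ, ℕ) :=
    Finset.sigma (Finset.range (r + 1)) (fun n => Finset.range (r + 1 - n)) with hP
  set G : Finset ℕ := P.image (fun p => (r + 3) * p.1 + 1 + p.2) with hG
  have hPm : ∀ p : (Σ _ : ℕ, ℕ), p ∈ P → p.1 + p.2 ≤ r := by
    intro p hp
    rw [hP, Finset.mem_sigma, Finset.mem_range, Finset.mem_range] at hp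
    omega
  have hGc : G.card = (r + 2) * (r + 1) / 2 := by
    rw [hG, Finset.card_image_of_injOn, hP, card_aux]
    rintro ⟨n, i⟩ hp ⟨n', i'⟩ hp' h
    have h1 := hPm _ hp
    have h2 := hPm _ hp'
    simp only at h h1 h2
    have h3 : n = n' := by
      rcases Nat.lt_trichotomy n n' with h4 | h4 | h4
      · nlinarith
      · exact h4
      · nlinarith
    subst h3
    have h5 : i = i' := by omega
    subst h5
    rfl
  rw [← hGc]
  have hdis : Disjoint T G := by
    rw [Finset.disjoint_left]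
    intro t ht htG
    obtain ⟨n', j, hj, hn', rfl⟩ := hT t ht
    rw [hG, Finset.mem_image] at htG
    obtain ⟨⟨n, i⟩, hp, h⟩ := htG
    have h1 := hPm _ hp
    simp only at h h1
    rcases Nat.lt_or_ge n n' with h4 | h4
    · nlinarith
    · nlinarith
  rw [← Finset.card_union_of_disjoint hdis]
  have hsub : T ∪ G ⊆ Finset.range ((r + 3) * d + 1) := by
    intro t ht
    rw [Finset.mem_range]
    rcases Finset.mem_union.mp ht with ht | ht
    · obtain ⟨n', j, hj, hn', rfl⟩ := hT t ht
      nlinarith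
    · rw [hG, Finset.mem_image] at ht
      obtain ⟨⟨n, i⟩, hp, h⟩ := ht
      have h1 := hPm _ hp
      simp only at h h1
      rw [← h]
      nlinarith
  have := Finset.card_le_card hsub
  rwa [Finset.card_range] at this

theorem card_small (s d : ℕ) (T : Finset ℕ)
    (hT : ∀ t ∈ T, ∃ n j, j ≤ n ∧ n ≤ d ∧ t = (s - 1) * n + j) :
    T.card ≤ (d + 1) * (d + 2) / 2 := by
  classical
  set P : Finset (Σ _ : ℕ, ℕ) :=
    Finset.sigma (Finset.range (d + 1)) (fun n => Finset.range (n + 1)) with hP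
  have hPc : P.card = (d + 1) * (d + 2) / 2 := by
    rw [hP, Finset.card_sigma]
    simp only [Finset.card_range]
    have h : ∑ n ∈ Finset.range (d + 1), (n + 1) = ∑ n ∈ Finset.range (d + 2), n := by
      rw [Finset.sum_range_succ' (fun n => n) (d + 1)]
      simp
    rw [h, Finset.sum_range_id]
    have : d + 2 - 1 = d + 1 := by omega
    rw [this, mul_comm]
  rw [← hPc]
  refine (Finset.card_le_card (?_ : T ⊆ P.image (fun p => (s - 1) * p.1 + p.2))).trans
    Finset.card_image_le
  intro t ht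
  obtain ⟨n, j, hj, hn, rfl⟩ := hT t ht
  rw [Finset.mem_image]
  refine ⟨⟨n, j⟩, ?_, rfl⟩
  rw [hP, Finset.mem_sigma, Finset.mem_range, Finset.mem_range]
  constructor
  · simp only; omega
  · simp only; omega



theorem phi_curve {k : Type*} [Field k] (s : ℕ) : phi k s (curve k s) = 0 := by
  unfold phi curve
  simp only [coe_eval₂RingHom, eval₂_sub, eval₂_pow, eval₂_X, eval₂_C, coe_compRingHom]
  simp only [pow_comp, add_comp, X_comp, one_comp, sub_add_cancel]
  rw [← pow_mul, ← pow_mul, mul_comm, sub_self]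

theorem g_zero {k : Type*} [Field k] (s r : ℕ) (hr : 1 ≤ r) (hs : 2 ≤ s) (g : k[X])
    (hg : (X - 1) ^ r ∣ (X : k[X]) ^ s - g.comp (X ^ (s - 1) - 1)) : g.eval 0 = 1 := by
  have h1 : (X - 1 : k[X]) ∣ (X : k[X]) ^ s - g.comp (X ^ (s - 1) - 1) :=
    dvd_trans (dvd_pow_self _ (by omega)) hg
  have h2 : (X - C (1 : k)) ∣ (X : k[X]) ^ s - g.comp (X ^ (s - 1) - 1) := by simpa using h1
  rw [dvd_iff_isRoot, IsRoot.def] at h2
  simp [eval_comp] at h2
  exact (sub_eq_zero.mp h2).symm

theorem core0 {k : Type*} [Field k] [CharZero k] (s : ℕ) (hs : 4 ≤ s) (g : k[X])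
    (hg : (X - 1) ^ (s ^ 2) ∣ (X : k[X]) ^ s - g.comp (X ^ (s - 1) - 1)) :
    ∀ (m : ℕ) (F : k[X][X]), DegLE (m * s) F →
      (X : k[X][X][X]) ^ (s ^ 2 * m) ∣ Wt k (s ^ 2) (taylor g F) →
      ∃ l : k, F = C (C l) * curve k s ^ m := by
  have hg0 : g.eval 0 = 1 := g_zero s (s ^ 2) (Nat.one_le_pow _ _ (by omega)) (by omega) g hg
  intro m
  induction m with
  | zero =>
    intro F hF _
    refine ⟨(F.coeff 0).coeff 0, ?_⟩
    ext j i
    rw [pow_zero, mul_one]
    by_cases hj : j = 0
    · subst hj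
      rw [coeff_C_zero]
      by_cases hi : i = 0
      · subst hi; simp
      · rw [coeff_C_ne_zero hi]
        by_contra hne
        have := hF 0 i hne
        omega
    · rw [coeff_C_ne_zero hj, coeff_zero]
      by_contra hne
      have := hF j i hne
      omega
  | succ m ih =>
    intro F hF hW
    have hphi : (X - 1) ^ (s ^ 2 * (m + 1)) ∣ phi k s F :=
      phi_of_lam s (by omega) (s ^ 2) g hg F _ hW
    have hdeg : (phi k s F).natDegree ≤ s ^ 2 * (m + 1) := by
      have := phi_natDegree s (by omega) ((m + 1) * s) F hF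
      calc (phi k s F).natDegree ≤ s * ((m + 1) * s) := this
        _ = s ^ 2 * (m + 1) := by ring
    have hN : ((s ^ 2 * (m + 1) : ℕ) : k) ≠ 0 := by
      rw [Nat.cast_ne_zero]; positivity
    have h0 : phi k s F = 0 := gap_one _ _ hN hdeg hphi (phi_coeff_one s hs F)
    obtain ⟨F', rfl⟩ := curve_dvd s (by omega) F h0
    have hF' : DegLE (m * s) F' := by
      apply degLE_of_mul s (by omega)
      have : (m + 1) * s = m * s + s := by ring
      rwa [this] at hF
    have hW' : (X : k[X][X][X]) ^ (s ^ 2 * m) ∣ Wt k (s ^ 2) (taylor g F') := by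
      rw [taylor_mul, map_mul] at hW
      refine prime_cancel X _ _ prime_X (s ^ 2) (s ^ 2 * m) (lam_curve s (by omega) (s ^ 2) (Nat.one_le_pow _ _ (by omega)) g hg0) ?_
      have : s ^ 2 * m + s ^ 2 = s ^ 2 * (m + 1) := by ring
      rwa [this]
    obtain ⟨l, hl⟩ := ih F' hF' hW'
    exact ⟨l, by rw [hl, pow_succ]; ring⟩

theorem core1 {k : Type*} [Field k] [CharZero k] (s : ℕ) (hs : 4 ≤ s) (g : k[X])
    (hg : (X - 1) ^ (s ^ 2) ∣ (X : k[X]) ^ s - g.comp (X ^ (s - 1) - 1)) :
    ∀ (m : ℕ) (F : k[X][X]) (μ : k), DegLE ((m + 1) * s) F →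
      (X : k[X][X][X]) ^ (s ^ 2 * (m + 1)) ∣ Wt k (s ^ 2) (taylor g (F +
        C (C μ * X ^ (s ^ 2 - 1)) * X ^ (s - 2) * curve k s ^ m)) → μ = 0 := by
  have hg0 : g.eval 0 = 1 := g_zero s (s ^ 2) (Nat.one_le_pow _ _ (by omega)) (by omega) g hg
  have hs2 : 16 ≤ s ^ 2 := by nlinarith
  intro m
  induction m with
  | zero =>
    intro F μ hF hW
    have hphi := phi_of_lam s (by omega) (s ^ 2) g hg _ _ hW
    have hdeg : (phi k s F).natDegree ≤ s ^ 2 := by
      have := phi_natDegree s (by omega) ((0 + 1) * s) F hF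
      calc (phi k s F).natDegree ≤ s * ((0 + 1) * s) := this
        _ = s ^ 2 := by ring
    obtain ⟨w, hw⟩ : (X - C (1 : k)) ∣ (X : k[X]) ^ (s - 1) - 1 := by
      rw [dvd_iff_isRoot, IsRoot.def]; simp
    have hw1 : w.eval 1 = ((s - 1 : ℕ) : k) := by
      have h := congrArg derivative hw
      have h2 := congrArg (eval 1) h
      rw [derivative_sub, derivative_X_pow, derivative_one, sub_zero, derivative_mul, eval_mul, eval_add, eval_mul,
        eval_mul] at h2
      simp at h2
      exact h2.symm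
    have hphi2 : phi k s (F + C (C μ * X ^ (s ^ 2 - 1)) * X ^ (s - 2) * curve k s ^ 0)
        = phi k s F + C μ * (X - 1) ^ (s ^ 2 - 1) * (w ^ (s ^ 2 - 1) * X ^ (s * (s - 2))) := by
      rw [map_add, pow_zero, mul_one, map_mul]
      congr 1
      unfold phi
      simp only [coe_eval₂RingHom, eval₂_pow, eval₂_X, eval₂_C, coe_compRingHom]
      simp only [mul_comp, C_comp, pow_comp, X_comp]
      rw [hw, mul_pow, ← pow_mul]
      simp only [C_1]
      ring
    rw [hphi2] at hphi
    have hr : s ^ 2 * (0 + 1) = s ^ 2 := by ring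
    rw [hr] at hphi
    refine gap_two (phi k s F) (w ^ (s ^ 2 - 1) * X ^ (s * (s - 2))) (s ^ 2) (by omega) hdeg ?_ μ hphi
      (phi_coeff_one s hs F) (phi_coeff_two s hs F)
    rw [eval_mul, eval_pow, hw1, eval_pow, eval_X, one_pow, mul_one]
    apply pow_ne_zero
    rw [Nat.cast_ne_zero]; omega
  | succ m ih =>
    intro F μ hF hW
    have hphi := phi_of_lam s (by omega) (s ^ 2) g hg _ _ hW
    have hdeg : (phi k s F).natDegree ≤ s ^ 2 * (m + 1 + 1) := by
      have := phi_natDegree s (by omega) ((m + 1 + 1) * s) F hF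
      calc (phi k s F).natDegree ≤ s * ((m + 1 + 1) * s) := this
        _ = s ^ 2 * (m + 1 + 1) := by ring
    have hphi2 : phi k s (F + C (C μ * X ^ (s ^ 2 - 1)) * X ^ (s - 2) * curve k s ^ (m + 1)) = phi k s F := by
      rw [map_add, map_mul _ _ (curve k s ^ (m + 1)), map_pow, phi_curve, zero_pow (by omega), mul_zero, add_zero]
    rw [hphi2] at hphi
    have hN : ((s ^ 2 * (m + 1 + 1) : ℕ) : k) ≠ 0 := by
      rw [Nat.cast_ne_zero]; positivity
    have h0 : phi k s F = 0 := gap_one _ _ hN hdeg hphi (phi_coeff_one s hs F)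
    obtain ⟨F', rfl⟩ := curve_dvd s (by omega) F h0
    have hF' : DegLE ((m + 1) * s) F' := by
      apply degLE_of_mul s (by omega)
      have : (m + 1 + 1) * s = (m + 1) * s + s := by ring
      rwa [this] at hF
    have heq : curve k s * F' + C (C μ * X ^ (s ^ 2 - 1)) * X ^ (s - 2) * curve k s ^ (m + 1)
        = curve k s * (F' + C (C μ * X ^ (s ^ 2 - 1)) * X ^ (s - 2) * curve k s ^ m) := by ring
    rw [heq, taylor_mul, map_mul] at hW
    refine ih F' μ hF' ?_
    refine prime_cancel X _ _ prime_X (s ^ 2) (s ^ 2 * (m + 1)) (lam_curve s (by omega) (s ^ 2) (Nat.one_le_pow _ _ (by omega)) g hg0) ?_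
    have : s ^ 2 * (m + 1) + s ^ 2 = s ^ 2 * (m + 1 + 1) := by ring
    rwa [this]

theorem first_order {k : Type*} [Field k] [CharZero k] (s : ℕ) (hs : 4 ≤ s) (g : k[X])
    (hg : (X - 1) ^ (s ^ 2) ∣ (X : k[X]) ^ s - g.comp (X ^ (s - 1) - 1))
    (m : ℕ) (hm : 1 ≤ m) (F0 F1 : k[X][X]) (h0 : DegLE (m * s) F0) (h1 : DegLE (m * s) F1)
    (hW0 : (X : k[X][X][X]) ^ (s ^ 2 * m) ∣ Wt k (s ^ 2) (taylor g F0))
    (hW1 : (X : k[X][X][X]) ^ (s ^ 2 * m) ∣
      Wt k (s ^ 2) (taylor g (F1 + C (X ^ (s ^ 2 - 1)) * derivative F0))) : F0 = 0 := by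
  obtain ⟨l, hl⟩ := core0 s hs g hg m F0 h0 hW0
  obtain ⟨n, rfl⟩ : ∃ n, m = n + 1 := ⟨m - 1, by omega⟩
  have hder : C (X ^ (s ^ 2 - 1)) * derivative F0
      = C (C (l * ((n + 1 : ℕ) : k) * ((s - 1 : ℕ) : k)) * X ^ (s ^ 2 - 1)) * X ^ (s - 2) * curve k s ^ n := by
    rw [hl, derivative_C_mul, derivative_pow]
    have hd : derivative (curve k s) = C (C ((s - 1 : ℕ) : k)) * X ^ (s - 2) := by
      unfold curve
      rw [derivative_sub, derivative_C, sub_zero, derivative_X_pow]
      congr 1
    rw [hd]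
    simp only [Nat.add_sub_cancel, map_mul, map_natCast]
    push_cast
    ring
  rw [hder] at hW1
  have := core1 s hs g hg n F1 _ h1 hW1
  have hl0 : l = 0 := by
    have hn : ((n + 1 : ℕ) : k) ≠ 0 := by rw [Nat.cast_ne_zero]; omega
    have hs' : ((s - 1 : ℕ) : k) ≠ 0 := by rw [Nat.cast_ne_zero]; omega
    rcases mul_eq_zero.mp this with h | h
    · rcases mul_eq_zero.mp h with h | h
      · exact h
      · exact absurd h hn
    · exact absurd h hs'
  rw [hl, hl0]; simp

section Mat

/-- exponents of the monomials of degree at most `d` -/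
abbrev Mon (d : ℕ) : Type := {j : Fin (d + 1) × Fin (d + 1) // (j.1 : ℕ) + (j.2 : ℕ) ≤ d}

/-- the conditions -/
abbrev Con (r N : ℕ) : Type := {c : Fin N × Fin N // (c.1 : ℕ) + r * (c.2 : ℕ) < N}

noncomputable def toPoly {A : Type*} [CommRing A] {d : ℕ} (f : Mon d → A) : A[X][X] :=
  ∑ j : Mon d, C (C (f j) * X ^ (j.1.1 : ℕ)) * (X : A[X][X]) ^ (j.1.2 : ℕ)

noncomputable def condM {A : Type*} [CommRing A] (r N d : ℕ) (g : A[X]) : Matrix (Con r N) (Mon d) A :=
  fun c j => (((((j.1.2 : ℕ).choose (c.1.2 : ℕ) : ℕ) : A[X])) * (g ^ ((j.1.2 : ℕ) - (c.1.2 : ℕ)) * X ^ (j.1.1 : ℕ))).coeff (c.1.1 : ℕ)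

theorem mon_coeff {A : Type*} [CommRing A] (c : A) (p' q' q p : ℕ) :
    ((C (C c * X ^ p') * (X : A[X][X]) ^ q').coeff q).coeff p = if q = q' ∧ p = p' then c else 0 := by
  rw [coeff_C_mul, coeff_X_pow]
  by_cases hq : q = q'
  · rw [if_pos hq, mul_one, coeff_C_mul, coeff_X_pow]
    by_cases hp : p = p' <;> simp [hq, hp]
  · simp [hq]

theorem toPoly_coeff {A : Type*} [CommRing A] {d : ℕ} (f : Mon d → A) (q p : ℕ) (h : p + q ≤ d) :
    ((toPoly f).coeff q).coeff p = f ⟨(⟨p, by omega⟩, ⟨q, by omega⟩), h⟩ := by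
  unfold toPoly
  rw [finset_sum_coeff, finset_sum_coeff, Finset.sum_eq_single ⟨(⟨p, by omega⟩, ⟨q, by omega⟩), h⟩]
  · rw [mon_coeff]; simp
  · rintro ⟨⟨⟨p', hp'⟩, ⟨q', hq'⟩⟩, h'⟩ _ hne
    rw [mon_coeff, if_neg]
    rintro ⟨h1, h2⟩
    simp only at h1 h2
    subst h1; subst h2
    exact hne rfl
  · intro h'; exact absurd (Finset.mem_univ _) h'

theorem toPoly_degLE {A : Type*} [CommRing A] {d : ℕ} (f : Mon d → A) : DegLE d (toPoly f) := by
  intro q p hne
  by_contra hlt
  apply hne
  unfold toPoly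
  rw [finset_sum_coeff, finset_sum_coeff]
  apply Finset.sum_eq_zero
  rintro ⟨⟨⟨p', hp'⟩, ⟨q', hq'⟩⟩, h'⟩ _
  simp only at h'
  rw [mon_coeff, if_neg]
  rintro ⟨h1, h2⟩
  simp only at h1 h2
  omega

theorem eq_toPoly {A : Type*} [CommRing A] {d : ℕ} (F : A[X][X]) (hF : DegLE d F) :
    F = toPoly (fun j : Mon d => (F.coeff (j.1.2 : ℕ)).coeff (j.1.1 : ℕ)) := by
  ext q p
  by_cases h : p + q ≤ d
  · rw [toPoly_coeff _ q p h]
  · have h1 : (F.coeff q).coeff p = 0 := by
      by_contra hne; exact h (hF q p hne)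
    have h2 : ((toPoly (fun j : Mon d => (F.coeff (j.1.2 : ℕ)).coeff (j.1.1 : ℕ))).coeff q).coeff p = 0 := by
      by_contra hne; exact h (toPoly_degLE _ q p hne)
    rw [h1, h2]

theorem toPoly_eq_zero {A : Type*} [CommRing A] {d : ℕ} (f : Mon d → A) (h : toPoly f = 0) : f = 0 := by
  funext j
  have := toPoly_coeff f (j.1.2 : ℕ) (j.1.1 : ℕ) j.2
  rw [h] at this
  simpa using this.symm

theorem condM_iff {A : Type*} [CommRing A] (r N d : ℕ) (hr : 1 ≤ r) (g : A[X]) (f : Mon d → A) :
    (condM r N d g).mulVec f = 0 ↔ (X : A[X][X][X]) ^ N ∣ Wt A r (taylor g (toPoly f)) := by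
  rw [wt_dvd_iff]
  constructor
  · intro h i n hin
    have hn : n < N := by omega
    have hi : i < N := by nlinarith
    have := congrFun h ⟨(⟨n, hn⟩, ⟨i, hi⟩), hin⟩
    unfold toPoly
    rw [taylor_sum_coeff]
    exact this
  · intro h
    funext c
    have := h (c.1.2 : ℕ) (c.1.1 : ℕ) c.2
    unfold toPoly at this
    rw [taylor_sum_coeff] at this
    exact this

theorem condM_map {A B : Type*} [CommRing A] [CommRing B] (ρ : A →+* B) (r N d : ℕ) (g : A[X]) :
    (condM r N d g).map ρ = condM r N d (g.map ρ) := by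
  ext c j
  simp only [condM, Matrix.map_apply]
  rw [← coeff_map, Polynomial.map_mul, Polynomial.map_mul, Polynomial.map_pow, Polynomial.map_pow, map_X,
    Polynomial.map_natCast]

noncomputable def gpoly {A : Type*} [CommRing A] {r : ℕ} (a : Fin r → A) : A[X] :=
  ∑ i : Fin r, C (a i) * X ^ (i : ℕ)

theorem gpoly_map {A B : Type*} [CommRing A] [CommRing B] (ρ : A →+* B) {r : ℕ} (a : Fin r → A) :
    (gpoly a).map ρ = gpoly (fun i => ρ (a i)) := by
  unfold gpoly
  rw [Polynomial.map_sum]
  apply Finset.sum_congr rfl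
  intro i _
  rw [Polynomial.map_mul, map_C, Polynomial.map_pow, map_X]

theorem toPoly_map {A B : Type*} [CommRing A] [CommRing B] (ρ : A →+* B) {d : ℕ} (f : Mon d → A) :
    (toPoly f).map (mapRingHom ρ) = toPoly (fun j => ρ (f j)) := by
  unfold toPoly
  rw [Polynomial.map_sum]
  apply Finset.sum_congr rfl
  intro i _
  rw [Polynomial.map_mul, map_C, Polynomial.map_pow, map_X]
  simp

end Mat

/-- injectivity along the line over `k[ε]` -/
theorem line_inj {k : Type*} [Field k] [CharZero k] (s : ℕ) (hs : 4 ≤ s) (m : ℕ) (hm : 1 ≤ m)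
    (g : k[X]) (hg : (X - 1) ^ (s ^ 2) ∣ (X : k[X]) ^ s - g.comp (X ^ (s - 1) - 1)) :
    ∀ (D : ℕ) (f : Mon (m * s) → k[X]), (∀ j, (f j).natDegree ≤ D) →
      (condM (s ^ 2) (s ^ 2 * m) (m * s)
        (g.map (C : k →+* k[X]) + C (X : k[X]) * (X ^ (s ^ 2 - 1) : k[X]).map (C : k →+* k[X]))).mulVec f = 0 →
      f = 0 := by
  have hr : 1 ≤ s ^ 2 := Nat.one_le_pow _ _ (by omega)
  -- the first order statement
  have key : ∀ f : Mon (m * s) → k[X],
      (condM (s ^ 2) (s ^ 2 * m) (m * s)
        (g.map (C : k →+* k[X]) + C (X : k[X]) * (X ^ (s ^ 2 - 1) : k[X]).map (C : k →+* k[X]))).mulVec f = 0 →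
      (fun j => (f j).coeff 0) = 0 := by
    intro f hf
    rw [condM_iff _ _ _ hr, wt_dvd_iff] at hf
    set f0 : Mon (m * s) → k := fun j => (f j).coeff 0 with hf0
    set f1 : Mon (m * s) → k := fun j => (f j).coeff 1 with hf1
    set f2 : Mon (m * s) → k[X] := fun j => (f j).divX.divX with hf2
    have hdec : toPoly f = (toPoly f0).map (mapRingHom (C : k →+* k[X]))
        + C (C (X : k[X])) * (toPoly f1).map (mapRingHom (C : k →+* k[X]))
        + C (C ((X : k[X]) ^ 2)) * toPoly f2 := by
      rw [toPoly_map, toPoly_map]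
      unfold toPoly
      rw [Finset.mul_sum, Finset.mul_sum, ← Finset.sum_add_distrib, ← Finset.sum_add_distrib]
      apply Finset.sum_congr rfl
      intro j _
      have hfj : f j = C (f0 j) + X * C (f1 j) + X ^ 2 * f2 j := by
        have e1 := Polynomial.divX_mul_X_add (f j)
        have e2 := Polynomial.divX_mul_X_add (f j).divX
        have e3 : (f j).divX.coeff 0 = (f j).coeff 1 := by rw [coeff_divX]
        simp only [hf0, hf1, hf2]
        rw [← e3]
        calc f j = (f j).divX * X + C ((f j).coeff 0) := e1.symm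
          _ = ((f j).divX.divX * X + C ((f j).divX.coeff 0)) * X + C ((f j).coeff 0) := by rw [e2]
          _ = _ := by ring
      rw [hfj]
      simp only [map_add, map_mul]
      ring
    have hall : ∀ i n, n + s ^ 2 * i < s ^ 2 * m → ((taylor g (toPoly f0)).coeff i).coeff n = 0 ∧
      ((taylor g (toPoly f1 + C (X ^ (s ^ 2 - 1)) * derivative (toPoly f0))).coeff i).coeff n = 0 := by
      intro i n hin
      apply eps_coeff g (X ^ (s ^ 2 - 1)) (toPoly f0) (toPoly f1) (toPoly f2) i n
      rw [← hdec]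
      exact hf i n hin
    have hz : toPoly f0 = 0 := by
      refine first_order s hs g hg m hm (toPoly f0) (toPoly f1) (toPoly_degLE _) (toPoly_degLE _) ?_ ?_
      · rw [wt_dvd_iff]; intro i n hin; exact (hall i n hin).1
      · rw [wt_dvd_iff]; intro i n hin; exact (hall i n hin).2
    exact toPoly_eq_zero _ hz
  intro D
  induction D with
  | zero =>
    intro f hD hf
    have h0 := key f hf
    funext j
    have h1 : f j = C ((f j).coeff 0) := eq_C_of_natDegree_le_zero (hD j)
    have h2 : (f j).coeff 0 = 0 := congrFun h0 j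
    rw [h1, h2]; simp
  | succ D ih =>
    intro f hD hf
    have h0 := key f hf
    have hfX : ∀ j, f j = X * (f j).divX := by
      intro j
      have e1 := Polynomial.divX_mul_X_add (f j)
      have h2 : (f j).coeff 0 = 0 := congrFun h0 j
      rw [h2] at e1
      rw [mul_comm]
      simpa using e1.symm
    have hsm : f = (X : k[X]) • (fun j => (f j).divX) := by
      funext j; exact hfX j
    have hz : (condM (s ^ 2) (s ^ 2 * m) (m * s)
        (g.map (C : k →+* k[X]) + C (X : k[X]) * (X ^ (s ^ 2 - 1) : k[X]).map (C : k →+* k[X]))).mulVec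
          (fun j => (f j).divX) = 0 := by
      rw [hsm, Matrix.mulVec_smul] at hf
      exact (smul_eq_zero.mp hf).resolve_left X_ne_zero
    have hd := ih (fun j => (f j).divX) (by
      intro j
      have := hD j
      rw [natDegree_divX_eq_natDegree_tsub_one]
      omega) hz
    rw [hsm, hd, smul_zero]

theorem main_exists {k : Type*} [Field k] [CharZero k] (s : ℕ) (hs : 4 ≤ s) (m : ℕ) (hm : 1 ≤ m) :
    ∃ P : MvPolynomial (Fin (s ^ 2)) k, P ≠ 0 ∧ ∀ a : Fin (s ^ 2) → k, MvPolynomial.eval a P ≠ 0 →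
      ∀ F : k[X][X], DegLE (m * s) F →
        (X : k[X][X][X]) ^ (s ^ 2 * m) ∣ Wt k (s ^ 2) (taylor (gpoly a) F) → F = 0 := by
  have hr : 1 ≤ s ^ 2 := Nat.one_le_pow _ _ (by omega)
  obtain ⟨a0, ha0⟩ := exists_g (k := k) s (by omega) (s ^ 2)
  change (X - 1) ^ (s ^ 2) ∣ (X : k[X]) ^ s - (gpoly a0).comp (X ^ (s - 1) - 1) at ha0
  set last : Fin (s ^ 2) := ⟨s ^ 2 - 1, by omega⟩ with hlast
  set N := condM (s ^ 2) (s ^ 2 * m) (m * s)
        ((gpoly a0).map (C : k →+* k[X]) + C (X : k[X]) * (X ^ (s ^ 2 - 1) : k[X]).map (C : k →+* k[X])) with hN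
  obtain ⟨ε, hε⟩ := line_lemma N (fun x hx =>
    line_inj s hs m hm (gpoly a0) ha0 (Finset.univ.sup fun j => (x j).natDegree) x
      (fun j => Finset.le_sup (f := fun j => (x j).natDegree) (Finset.mem_univ j)) hx)
  set M : Matrix (Con (s ^ 2) (s ^ 2 * m)) (Mon (m * s)) (MvPolynomial (Fin (s ^ 2)) k) :=
    condM (s ^ 2) (s ^ 2 * m) (m * s) (gpoly (fun i => MvPolynomial.X i)) with hM
  have hMmap : ∀ a : Fin (s ^ 2) → k, M.map (MvPolynomial.eval a) = condM (s ^ 2) (s ^ 2 * m) (m * s) (gpoly a) := by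
    intro a
    rw [hM]
    have := condM_map (MvPolynomial.eval a : MvPolynomial (Fin (s ^ 2)) k →+* k) (s ^ 2) (s ^ 2 * m) (m * s)
      (gpoly (fun i => MvPolynomial.X i))
    rw [this, gpoly_map]
    simp
  have hNmap : N.map (fun p => p.eval ε) = condM (s ^ 2) (s ^ 2 * m) (m * s)
      (gpoly (fun i => a0 i + if i = last then ε else 0)) := by
    have h1 := condM_map (evalRingHom ε : k[X] →+* k) (s ^ 2) (s ^ 2 * m) (m * s)
      ((gpoly a0).map (C : k →+* k[X]) + C (X : k[X]) * (X ^ (s ^ 2 - 1) : k[X]).map (C : k →+* k[X]))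
    have h2 : ((gpoly a0).map (C : k →+* k[X]) + C (X : k[X]) * (X ^ (s ^ 2 - 1) : k[X]).map (C : k →+* k[X])).map
        (evalRingHom ε) = gpoly (fun i => a0 i + if i = last then ε else 0) := by
      rw [Polynomial.map_add, Polynomial.map_map, Polynomial.map_mul, Polynomial.map_map, map_C]
      have h3 : (evalRingHom ε).comp (C : k →+* k[X]) = RingHom.id k := by ext; simp
      rw [h3, Polynomial.map_id, Polynomial.map_id]
      unfold gpoly
      simp only [map_add, add_mul, Finset.sum_add_distrib]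
      congr 1
      rw [Finset.sum_eq_single last]
      · simp [hlast]
      · intro b _ hb; simp [hb]
      · intro h; exact absurd (Finset.mem_univ _) h
    rw [h2] at h1
    exact h1
  obtain ⟨P, hP, hPa⟩ := open_lemma M (fun i => a0 i + if i = last then ε else 0) (by
    intro x hx
    rw [hMmap, ← hNmap] at hx
    exact hε x hx)
  refine ⟨P, hP, fun a ha F hF hW => ?_⟩
  rw [eq_toPoly F hF] at hW ⊢
  rw [← condM_iff _ _ _ hr, ← hMmap] at hW
  have := hPa a ha _ hW
  rw [this]
  simp [toPoly]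

theorem curve_kill {k : Type*} [Field k] (s : ℕ) (hs : 2 ≤ s) (d : ℕ) (hd : d < s) (F : k[X][X])
    (h : DegLE d (curve k s * F)) : F = 0 := by
  have h0 : DegLE 0 F := by
    apply degLE_of_mul s hs
    intro j i hne
    have := h j i hne
    omega
  have hF : F = C (C ((F.coeff 0).coeff 0)) := by
    ext j i
    by_cases hj : j = 0
    · subst hj
      rw [coeff_C_zero]
      by_cases hi : i = 0
      · subst hi; simp
      · rw [coeff_C_ne_zero hi]
        by_contra hne
        have := h0 0 i hne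
        omega
    · rw [coeff_C_ne_zero hj, coeff_zero]
      by_contra hne
      have := h0 j i hne
      omega
  set l := (F.coeff 0).coeff 0 with hl
  by_contra hF0
  have hl0 : l ≠ 0 := by
    intro h'; apply hF0; rw [hF, h']; simp
  have hc : ((curve k s * F).coeff 0).coeff s = - l := by
    rw [hF, coeff_mul_C, coeff_mul_C]
    unfold curve
    have h1 : ((X : k[X][X]) ^ (s - 1)).coeff 0 = 0 := by
      rw [coeff_X_pow, if_neg (by omega)]
    rw [coeff_sub, h1, coeff_C_zero, zero_sub, coeff_neg]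
    have h2 : ((X + 1 : k[X]) ^ s).coeff s = 1 := by
      rw [coeff_X_add_one_pow]; simp
    rw [h2]; ring
  have := h 0 s (by rw [hc]; exact neg_ne_zero.mpr hl0)
  omega

theorem core2B {k : Type*} [Field k] [CharZero k] (e : ℕ) (he : 3 ≤ e) (r : ℕ) (hr : e * e ≤ r) (g : k[X])
    (hg : (X - 1) ^ r ∣ (X : k[X]) ^ e - g.comp (X ^ (e - 1) - 1)) :
    ∀ (m d : ℕ) (F : k[X][X]), d < e * m → DegLE d F →
      (X : k[X][X][X]) ^ (r * m) ∣ Wt k r (taylor g F) → F = 0 := by
  have hr1 : 1 ≤ r := by nlinarith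
  have hg0 : g.eval 0 = 1 := g_zero e r hr1 (by omega) g hg
  intro m
  induction m with
  | zero => intro d F hd; omega
  | succ m ih =>
    intro d F hd hF hW
    have hphi : (X - 1) ^ (r * (m + 1)) ∣ phi k e F := phi_of_lam e (by omega) r g hg F _ hW
    have hdeg : (phi k e F).natDegree ≤ e * d := phi_natDegree e (by omega) d F hF
    have h0 : phi k e F = 0 := by
      apply Polynomial.eq_zero_of_dvd_of_natDegree_lt hphi
      have h1 : ((X - 1 : k[X]) ^ (r * (m + 1))).natDegree = r * (m + 1) := by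
        have : (X - 1 : k[X]) = X - C 1 := by simp
        rw [this, natDegree_pow, natDegree_X_sub_C, mul_one]
      rw [h1]
      calc (phi k e F).natDegree ≤ e * d := hdeg
        _ < e * (e * (m + 1)) := by
          apply Nat.mul_lt_mul_of_pos_left hd (by omega)
        _ = e * e * (m + 1) := by ring
        _ ≤ r * (m + 1) := Nat.mul_le_mul_right _ hr
    obtain ⟨F', rfl⟩ := curve_dvd e (by omega) F h0
    rcases Nat.lt_or_ge d e with hde | hde
    · rw [curve_kill e (by omega) d hde F' hF, mul_zero]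
    · obtain ⟨d', rfl⟩ := Nat.exists_eq_add_of_le' hde
      have hF' : DegLE d' F' := degLE_of_mul e (by omega) d' F' hF
      have hW' : (X : k[X][X][X]) ^ (r * m) ∣ Wt k r (taylor g F') := by
        rw [taylor_mul, map_mul] at hW
        refine prime_cancel X _ _ prime_X r (r * m) (lam_curve e (by omega) r hr1 g hg0) ?_
        have : r * m + r = r * (m + 1) := by ring
        rwa [this]
      rw [ih d' F' (by rw [Nat.mul_succ] at hd; omega) hF' hW', mul_zero]

theorem core2A {k : Type*} [Field k] [CharZero k] (e : ℕ) (he : 3 ≤ e) (r : ℕ) (hr : r ≤ e * e)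
    (hr2 : (e - 1) * (e - 2) / 2 ≤ r) (g : k[X])
    (hg : (X - 1) ^ r ∣ (X : k[X]) ^ e - g.comp (X ^ (e - 1) - 1)) :
    ∀ (m d : ℕ) (F : k[X][X]), d < e * m → e * d + 1 ≤ r * m + (e - 1) * (e - 2) / 2 → DegLE d F →
      (X : k[X][X][X]) ^ (r * m) ∣ Wt k r (taylor g F) → F = 0 := by
  have hδ : 1 ≤ (e - 1) * (e - 2) / 2 := by
    rw [Nat.le_div_iff_mul_le (by norm_num)]
    obtain ⟨q, rfl⟩ : ∃ q, e = q + 3 := ⟨e - 3, by omega⟩
    have h1 : q + 3 - 1 = q + 2 := by omega
    have h2 : q + 3 - 2 = q + 1 := by omega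
    rw [h1, h2]
    nlinarith
  have hr1 : 1 ≤ r := le_trans hδ hr2
  have hg0 : g.eval 0 = 1 := g_zero e r hr1 (by omega) g hg
  intro m
  induction m with
  | zero => intro d F hd; omega
  | succ m ih =>
    intro d F hd hc hF hW
    have hphi : (X - 1) ^ (r * (m + 1)) ∣ phi k e F := phi_of_lam e (by omega) r g hg F _ hW
    have hcard : (phi k e F).support.card ≤ r * (m + 1) := by
      have hT := phi_support e (by omega) d F hF
      rcases Nat.lt_or_ge d (e - 2) with hde | hde
      · have h1 := card_small e d _ hT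
        have h2 : (d + 1) * (d + 2) / 2 ≤ (e - 1) * (e - 2) / 2 := by
          apply Nat.div_le_div_right
          rw [mul_comm (e - 1) (e - 2)]
          apply Nat.mul_le_mul <;> omega
        calc (phi k e F).support.card ≤ (d + 1) * (d + 2) / 2 := h1
          _ ≤ r := le_trans h2 hr2
          _ ≤ r * (m + 1) := Nat.le_mul_of_pos_right _ (by omega)
      · have h1 := card_semigroup e d he hde _ hT
        omega
    have h0 : phi k e F = 0 := fewnomial _ _ hcard hphi
    obtain ⟨F', rfl⟩ := curve_dvd e (by omega) F h0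
    rcases Nat.lt_or_ge d e with hde | hde
    · rw [curve_kill e (by omega) d hde F' hF, mul_zero]
    · obtain ⟨d', rfl⟩ := Nat.exists_eq_add_of_le' hde
      have hF' : DegLE d' F' := degLE_of_mul e (by omega) d' F' hF
      have hW' : (X : k[X][X][X]) ^ (r * m) ∣ Wt k r (taylor g F') := by
        rw [taylor_mul, map_mul] at hW
        refine prime_cancel X _ _ prime_X r (r * m) (lam_curve e (by omega) r hr1 g hg0) ?_
        have : r * m + r = r * (m + 1) := by ring
        rwa [this]
      have e1 : e * (d' + e) = e * d' + e * e := by ring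
      have e2 : r * (m + 1) = r * m + r := by ring
      have e3 : e * (m + 1) = e * m + e := by ring
      rw [ih d' F' (by omega) (by omega) hF' hW', mul_zero]

theorem open_of_special {k : Type*} [Field k] (r N d : ℕ) (hr : 1 ≤ r) (a0 : Fin r → k)
    (h : ∀ F : k[X][X], DegLE d F → (X : k[X][X][X]) ^ N ∣ Wt k r (taylor (gpoly a0) F) → F = 0) :
    ∃ P : MvPolynomial (Fin r) k, P ≠ 0 ∧ ∀ a : Fin r → k, MvPolynomial.eval a P ≠ 0 →
      ∀ F : k[X][X], DegLE d F → (X : k[X][X][X]) ^ N ∣ Wt k r (taylor (gpoly a) F) → F = 0 := by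
  set M : Matrix (Con r N) (Mon d) (MvPolynomial (Fin r) k) :=
    condM r N d (gpoly (fun i => MvPolynomial.X i)) with hM
  have hMmap : ∀ a : Fin r → k, M.map (MvPolynomial.eval a) = condM r N d (gpoly a) := by
    intro a
    rw [hM]
    have := condM_map (MvPolynomial.eval a : MvPolynomial (Fin r) k →+* k) r N d
      (gpoly (fun i => MvPolynomial.X i))
    rw [this, gpoly_map]
    simp
  obtain ⟨P, hP, hPa⟩ := open_lemma M a0 (by
    intro x hx
    rw [hMmap, condM_iff _ _ _ hr] at hx
    exact toPoly_eq_zero _ (h _ (toPoly_degLE x) hx))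
  refine ⟨P, hP, fun a ha F hF hW => ?_⟩
  rw [eq_toPoly F hF] at hW ⊢
  rw [← condM_iff _ _ _ hr, ← hMmap] at hW
  have := hPa a ha _ hW
  rw [this]
  simp [toPoly]

theorem card_stage {k : Type*} [Field k] (e t r : ℕ) (he : 3 ≤ e) (her : e * e ≤ r)
    (hM : e * (e + t) + 1 + (t + 1) * (t + 2) / 2 ≤ r + (e - 1) * (e - 2) / 2) (m : ℕ) (F : k[X][X])
    (hF : DegLE (e * (m + 1) + t) F) : (phi k e F).support.card ≤ r * (m + 1) := by
  have hT := phi_support e (by omega) _ F hF
  have h0 : e ≤ e * (m + 1) := Nat.le_mul_of_pos_right _ (by omega)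
  have h1 := card_semigroup e (e * (m + 1) + t) he (by omega) _ hT
  have h2 : e * (e * (m + 1) + t) = e * e * m + e * (e + t) := by ring
  have h3 : e * e * m ≤ r * m := Nat.mul_le_mul_right _ her
  have h4 : r * (m + 1) = r * m + r := by ring
  rw [h2] at h1
  omega

theorem core0' {k : Type*} [Field k] [CharZero k] (e t r : ℕ) (he : 3 ≤ e) (her : e * e ≤ r)
    (hM : e * (e + t) + 1 + (t + 1) * (t + 2) / 2 ≤ r + (e - 1) * (e - 2) / 2) (g : k[X])
    (hg : (X - 1) ^ r ∣ (X : k[X]) ^ e - g.comp (X ^ (e - 1) - 1)) :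
    ∀ (m : ℕ) (F : k[X][X]), DegLE (e * m + t) F →
      (X : k[X][X][X]) ^ (r * m) ∣ Wt k r (taylor g F) →
      ∃ G : k[X][X], DegLE t G ∧ F = curve k e ^ m * G := by
  have hr1 : 1 ≤ r := by nlinarith
  have hg0 : g.eval 0 = 1 := g_zero e r hr1 (by omega) g hg
  intro m
  induction m with
  | zero =>
    intro F hF _
    exact ⟨F, by simpa using hF, by simp⟩
  | succ m ih =>
    intro F hF hW
    have hphi : (X - 1) ^ (r * (m + 1)) ∣ phi k e F := phi_of_lam e (by omega) r g hg F _ hW
    have h0 : phi k e F = 0 := fewnomial _ _ (card_stage e t r he her hM m F hF) hphi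
    obtain ⟨F', rfl⟩ := curve_dvd e (by omega) F h0
    have hF' : DegLE (e * m + t) F' := by
      apply degLE_of_mul e (by omega)
      have : e * (m + 1) + t = e * m + t + e := by ring
      rwa [this] at hF
    have hW' : (X : k[X][X][X]) ^ (r * m) ∣ Wt k r (taylor g F') := by
      rw [taylor_mul, map_mul] at hW
      refine prime_cancel X _ _ prime_X r (r * m) (lam_curve e (by omega) r hr1 g hg0) ?_
      have : r * m + r = r * (m + 1) := by ring
      rwa [this]
    obtain ⟨G, hG, hl⟩ := ih F' hF' hW'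
    exact ⟨G, hG, by rw [hl, pow_succ]; ring⟩

theorem core1' {k : Type*} [Field k] [CharZero k] (e t r a : ℕ) (he : 3 ≤ e) (hte : t < e) (her : e * e ≤ r)
    (hM : e * (e + t) + 1 + (t + 1) * (t + 2) / 2 ≤ r + (e - 1) * (e - 2) / 2)
    (ha : a + (e - 1) * (e - 2) / 2 = e * (e + t) + 1) (g : k[X])
    (hg : (X - 1) ^ r ∣ (X : k[X]) ^ e - g.comp (X ^ (e - 1) - 1)) :
    ∀ (m : ℕ) (F G K : k[X][X]), DegLE (e * (m + 1) + t) F → DegLE t G →
      (X : k[X][X][X]) ^ (r * (m + 1)) ∣ Wt k r (taylor g (F +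
        C (X ^ a) * X ^ (e - 2) * G * curve k e ^ m + curve k e ^ (m + 1) * K)) → G = 0 := by
  have hr1 : 1 ≤ r := by nlinarith
  have hg0 : g.eval 0 = 1 := g_zero e r hr1 (by omega) g hg
  intro m
  induction m with
  | zero =>
    intro F G K hF hG hW
    have hphi := phi_of_lam e (by omega) r g hg _ _ hW
    obtain ⟨w, hw⟩ : (X - C (1 : k)) ∣ (X : k[X]) ^ (e - 1) - 1 := by
      rw [dvd_iff_isRoot, IsRoot.def]; simp
    have hw1 : w.eval 1 = ((e - 1 : ℕ) : k) := by
      have h := congrArg derivative hw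
      have h2 := congrArg (eval 1) h
      rw [derivative_sub, derivative_X_pow, derivative_one, sub_zero, derivative_mul, eval_mul, eval_add, eval_mul,
        eval_mul] at h2
      simp at h2
      exact h2.symm
    have hphi2 : phi k e (F + C (X ^ a) * X ^ (e - 2) * G * curve k e ^ 0 + curve k e ^ (0 + 1) * K)
        = phi k e F + (X - 1) ^ a * (w ^ a * X ^ (e * (e - 2)) * phi k e G) := by
      rw [map_add, map_add, zero_add, pow_zero, mul_one, pow_one, map_mul _ (curve k e), phi_curve, zero_mul, add_zero,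
        map_mul, map_mul]
      congr 1
      have : phi k e (C (X ^ a) * X ^ (e - 2)) = (X - 1) ^ a * (w ^ a * X ^ (e * (e - 2))) := by
        rw [map_mul]
        unfold phi
        simp only [coe_eval₂RingHom, eval₂_pow, eval₂_X, eval₂_C, coe_compRingHom]
        simp only [pow_comp, X_comp]
        rw [hw, mul_pow, ← pow_mul]
        simp only [C_1]
        ring
      rw [← map_mul, this]
      ring
    rw [hphi2, zero_add, mul_one] at hphi
    have hX : (X - 1 : k[X]) = X - C 1 := by simp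
    have hne : (X - 1 : k[X]) ≠ 0 := by rw [hX]; exact X_sub_C_ne_zero 1
    have har : a + (t + 1) * (t + 2) / 2 ≤ r := by omega
    -- phi F vanishes
    have hcA : (phi k e F).support.card ≤ a := by
      have hT := phi_support e (by omega) _ F hF
      have h1 := card_semigroup e (e * (0 + 1) + t) he (by omega) _ hT
      have h2 : e * (e * (0 + 1) + t) = e * (e + t) := by ring
      rw [h2] at h1
      omega
    have hA : phi k e F = 0 := by
      apply fewnomial _ a hcA
      have h1 : (X - 1 : k[X]) ^ a ∣ phi k e F + (X - 1) ^ a * (w ^ a * X ^ (e * (e - 2)) * phi k e G) :=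
        dvd_trans (pow_dvd_pow _ (by omega)) hphi
      exact (dvd_add_left (Dvd.intro _ rfl)).mp h1
    rw [hA, zero_add] at hphi
    have hG2 : (X - 1 : k[X]) ^ ((t + 1) * (t + 2) / 2) ∣ w ^ a * X ^ (e * (e - 2)) * phi k e G := by
      have h1 : (X - 1 : k[X]) ^ (a + (t + 1) * (t + 2) / 2) ∣
          (X - 1) ^ a * (w ^ a * X ^ (e * (e - 2)) * phi k e G) := dvd_trans (pow_dvd_pow _ har) hphi
      rw [pow_add] at h1
      exact (mul_dvd_mul_iff_left (pow_ne_zero _ hne)).mp h1
    have hprime : Prime (X - 1 : k[X]) := by rw [hX]; exact prime_X_sub_C 1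
    have hnd : ¬ (X - 1 : k[X]) ∣ w ^ a * X ^ (e * (e - 2)) := by
      rw [hX, dvd_iff_isRoot, IsRoot.def, eval_mul, eval_pow, hw1, eval_pow, eval_X, one_pow, mul_one]
      apply pow_ne_zero
      rw [Nat.cast_ne_zero]; omega
    have hG3 : (X - 1 : k[X]) ^ ((t + 1) * (t + 2) / 2) ∣ phi k e G :=
      hprime.pow_dvd_of_dvd_mul_left _ hnd hG2
    have hG4 : phi k e G = 0 := by
      apply fewnomial _ _ _ hG3
      exact card_small e t _ (phi_support e (by omega) t G hG)
    obtain ⟨G', rfl⟩ := curve_dvd e (by omega) G hG4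
    rw [curve_kill e (by omega) t hte G' hG, mul_zero]
  | succ m ih =>
    intro F G K hF hG hW
    have hphi := phi_of_lam e (by omega) r g hg _ _ hW
    have hphi2 : phi k e (F + C (X ^ a) * X ^ (e - 2) * G * curve k e ^ (m + 1) + curve k e ^ (m + 1 + 1) * K)
        = phi k e F := by
      have : F + C (X ^ a) * X ^ (e - 2) * G * curve k e ^ (m + 1) + curve k e ^ (m + 1 + 1) * K
        = F + curve k e * (C (X ^ a) * X ^ (e - 2) * G * curve k e ^ m + curve k e ^ (m + 1) * K) := by ring
      rw [this, map_add, map_mul _ (curve k e), phi_curve, zero_mul, add_zero]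
    rw [hphi2] at hphi
    have h0 : phi k e F = 0 := fewnomial _ _ (card_stage e t r he her hM (m + 1) F hF) hphi
    obtain ⟨F', rfl⟩ := curve_dvd e (by omega) F h0
    have hF' : DegLE (e * (m + 1) + t) F' := by
      apply degLE_of_mul e (by omega)
      have : e * (m + 1 + 1) + t = e * (m + 1) + t + e := by ring
      rwa [this] at hF
    have heq : curve k e * F' + C (X ^ a) * X ^ (e - 2) * G * curve k e ^ (m + 1) + curve k e ^ (m + 1 + 1) * K
        = curve k e * (F' + C (X ^ a) * X ^ (e - 2) * G * curve k e ^ m + curve k e ^ (m + 1) * K) := by ring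
    rw [heq, taylor_mul, map_mul] at hW
    refine ih F' G K hF' hG ?_
    refine prime_cancel X _ _ prime_X r (r * (m + 1)) (lam_curve e (by omega) r hr1 g hg0) ?_
    have : r * (m + 1) + r = r * (m + 1 + 1) := by ring
    rwa [this]

theorem first_order' {k : Type*} [Field k] [CharZero k] (e t r a : ℕ) (he : 3 ≤ e) (hte : t < e) (her : e * e ≤ r)
    (hM : e * (e + t) + 1 + (t + 1) * (t + 2) / 2 ≤ r + (e - 1) * (e - 2) / 2)
    (ha : a + (e - 1) * (e - 2) / 2 = e * (e + t) + 1) (g : k[X])
    (hg : (X - 1) ^ r ∣ (X : k[X]) ^ e - g.comp (X ^ (e - 1) - 1))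
    (m : ℕ) (hm : 1 ≤ m) (F0 F1 : k[X][X]) (h0 : DegLE (e * m + t) F0) (h1 : DegLE (e * m + t) F1)
    (hW0 : (X : k[X][X][X]) ^ (r * m) ∣ Wt k r (taylor g F0))
    (hW1 : (X : k[X][X][X]) ^ (r * m) ∣ Wt k r (taylor g (F1 + C (X ^ a) * derivative F0))) : F0 = 0 := by
  obtain ⟨G, hG, hl⟩ := core0' e t r he her hM g hg m F0 h0 hW0
  obtain ⟨n, rfl⟩ : ∃ n, m = n + 1 := ⟨m - 1, by omega⟩
  have hd : derivative (curve k e) = C (C ((e - 1 : ℕ) : k)) * X ^ (e - 2) := by
    unfold curve
    rw [derivative_sub, derivative_C, sub_zero, derivative_X_pow]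
    congr 1
  have hder : F1 + C (X ^ a) * derivative F0
      = F1 + C (X ^ a) * X ^ (e - 2) * (C (C (((n + 1 : ℕ) : k) * ((e - 1 : ℕ) : k))) * G) * curve k e ^ n
        + curve k e ^ (n + 1) * (C (X ^ a) * derivative G) := by
    rw [hl, derivative_mul, derivative_pow, hd]
    simp only [Nat.add_sub_cancel, map_mul, map_natCast]
    push_cast
    ring
  rw [hder] at hW1
  have hG' : DegLE t (C (C (((n + 1 : ℕ) : k) * ((e - 1 : ℕ) : k))) * G) := by
    intro j i hne
    apply hG j i
    intro h0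
    apply hne
    rw [coeff_C_mul, coeff_C_mul, h0, mul_zero]
  have := core1' e t r a he hte her hM ha g hg n F1 _ _ h1 hG' hW1
  have hc : (C (C (((n + 1 : ℕ) : k) * ((e - 1 : ℕ) : k))) : k[X][X]) ≠ 0 := by
    rw [Ne, C_eq_zero, C_eq_zero]
    apply mul_ne_zero <;> rw [Nat.cast_ne_zero] <;> omega
  rw [hl, (mul_eq_zero.mp this).resolve_left hc, mul_zero]

/-- injectivity along the line over `k[ε]` -/
theorem line_inj' {k : Type*} [Field k] [CharZero k] (e t r a : ℕ) (he : 3 ≤ e) (hte : t < e) (her : e * e ≤ r)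
    (hM : e * (e + t) + 1 + (t + 1) * (t + 2) / 2 ≤ r + (e - 1) * (e - 2) / 2)
    (ha : a + (e - 1) * (e - 2) / 2 = e * (e + t) + 1) (m : ℕ) (hm : 1 ≤ m)
    (g : k[X]) (hg : (X - 1) ^ r ∣ (X : k[X]) ^ e - g.comp (X ^ (e - 1) - 1)) :
    ∀ (D : ℕ) (f : Mon (e * m + t) → k[X]), (∀ j, (f j).natDegree ≤ D) →
      (condM r (r * m) (e * m + t)
        (g.map (C : k →+* k[X]) + C (X : k[X]) * (X ^ a : k[X]).map (C : k →+* k[X]))).mulVec f = 0 →
      f = 0 := by
  have hr : 1 ≤ r := by nlinarith
  -- the first order statement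
  have key : ∀ f : Mon (e * m + t) → k[X],
      (condM r (r * m) (e * m + t)
        (g.map (C : k →+* k[X]) + C (X : k[X]) * (X ^ a : k[X]).map (C : k →+* k[X]))).mulVec f = 0 →
      (fun j => (f j).coeff 0) = 0 := by
    intro f hf
    rw [condM_iff _ _ _ hr, wt_dvd_iff] at hf
    set f0 : Mon (e * m + t) → k := fun j => (f j).coeff 0 with hf0
    set f1 : Mon (e * m + t) → k := fun j => (f j).coeff 1 with hf1
    set f2 : Mon (e * m + t) → k[X] := fun j => (f j).divX.divX with hf2
    have hdec : toPoly f = (toPoly f0).map (mapRingHom (C : k →+* k[X]))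
        + C (C (X : k[X])) * (toPoly f1).map (mapRingHom (C : k →+* k[X]))
        + C (C ((X : k[X]) ^ 2)) * toPoly f2 := by
      rw [toPoly_map, toPoly_map]
      unfold toPoly
      rw [Finset.mul_sum, Finset.mul_sum, ← Finset.sum_add_distrib, ← Finset.sum_add_distrib]
      apply Finset.sum_congr rfl
      intro j _
      have hfj : f j = C (f0 j) + X * C (f1 j) + X ^ 2 * f2 j := by
        have e1 := Polynomial.divX_mul_X_add (f j)
        have e2 := Polynomial.divX_mul_X_add (f j).divX
        have e3 : (f j).divX.coeff 0 = (f j).coeff 1 := by rw [coeff_divX]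
        simp only [hf0, hf1, hf2]
        rw [← e3]
        calc f j = (f j).divX * X + C ((f j).coeff 0) := e1.symm
          _ = ((f j).divX.divX * X + C ((f j).divX.coeff 0)) * X + C ((f j).coeff 0) := by rw [e2]
          _ = _ := by ring
      rw [hfj]
      simp only [map_add, map_mul]
      ring
    have hall : ∀ i n, n + r * i < r * m → ((taylor g (toPoly f0)).coeff i).coeff n = 0 ∧
      ((taylor g (toPoly f1 + C (X ^ a) * derivative (toPoly f0))).coeff i).coeff n = 0 := by
      intro i n hin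
      apply eps_coeff g (X ^ a) (toPoly f0) (toPoly f1) (toPoly f2) i n
      rw [← hdec]
      exact hf i n hin
    have hz : toPoly f0 = 0 := by
      refine first_order' e t r a he hte her hM ha g hg m hm (toPoly f0) (toPoly f1) (toPoly_degLE _) (toPoly_degLE _) ?_ ?_
      · rw [wt_dvd_iff]; intro i n hin; exact (hall i n hin).1
      · rw [wt_dvd_iff]; intro i n hin; exact (hall i n hin).2
    exact toPoly_eq_zero _ hz
  intro D
  induction D with
  | zero =>
    intro f hD hf
    have h0 := key f hf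
    funext j
    have h1 : f j = C ((f j).coeff 0) := eq_C_of_natDegree_le_zero (hD j)
    have h2 : (f j).coeff 0 = 0 := congrFun h0 j
    rw [h1, h2]; simp
  | succ D ih =>
    intro f hD hf
    have h0 := key f hf
    have hfX : ∀ j, f j = X * (f j).divX := by
      intro j
      have e1 := Polynomial.divX_mul_X_add (f j)
      have h2 : (f j).coeff 0 = 0 := congrFun h0 j
      rw [h2] at e1
      rw [mul_comm]
      simpa using e1.symm
    have hsm : f = (X : k[X]) • (fun j => (f j).divX) := by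
      funext j; exact hfX j
    have hz : (condM r (r * m) (e * m + t)
        (g.map (C : k →+* k[X]) + C (X : k[X]) * (X ^ a : k[X]).map (C : k →+* k[X]))).mulVec
          (fun j => (f j).divX) = 0 := by
      rw [hsm, Matrix.mulVec_smul] at hf
      exact (smul_eq_zero.mp hf).resolve_left X_ne_zero
    have hd := ih (fun j => (f j).divX) (by
      intro j
      have := hD j
      rw [natDegree_divX_eq_natDegree_tsub_one]
      omega) hz
    rw [hsm, hd, smul_zero]

theorem main_exists' {k : Type*} [Field k] [CharZero k] (e t r : ℕ) (he : 3 ≤ e) (hte : t < e) (her : e * e ≤ r)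
    (hM : e * (e + t) + 1 + (t + 1) * (t + 2) / 2 ≤ r + (e - 1) * (e - 2) / 2) (m : ℕ) (hm : 1 ≤ m) :
    ∃ P : MvPolynomial (Fin r) k, P ≠ 0 ∧ ∀ a : Fin r → k, MvPolynomial.eval a P ≠ 0 →
      ∀ F : k[X][X], DegLE (e * m + t) F →
        (X : k[X][X][X]) ^ (r * m) ∣ Wt k r (taylor (gpoly a) F) → F = 0 := by
  have hr : 1 ≤ r := by nlinarith
  have hδ : (e - 1) * (e - 2) / 2 ≤ e * (e + t) + 1 := by
    have : (e - 1) * (e - 2) ≤ e * (e + t) := Nat.mul_le_mul (by omega) (by omega)
    omega
  obtain ⟨a, ha⟩ : ∃ a, a + (e - 1) * (e - 2) / 2 = e * (e + t) + 1 := ⟨_, Nat.sub_add_cancel hδ⟩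
  have hb : 1 ≤ (t + 1) * (t + 2) / 2 := by
    rw [Nat.le_div_iff_mul_le (by norm_num)]; nlinarith
  have har : a < r := by omega
  obtain ⟨a0, ha0⟩ := exists_g (k := k) e (by omega) r
  change (X - 1) ^ r ∣ (X : k[X]) ^ e - (gpoly a0).comp (X ^ (e - 1) - 1) at ha0
  set last : Fin r := ⟨a, har⟩ with hlast
  set N := condM r (r * m) (e * m + t)
        ((gpoly a0).map (C : k →+* k[X]) + C (X : k[X]) * (X ^ a : k[X]).map (C : k →+* k[X])) with hN
  obtain ⟨ε, hε⟩ := line_lemma N (fun x hx =>
    line_inj' e t r a he hte her hM ha m hm (gpoly a0) ha0 (Finset.univ.sup fun j => (x j).natDegree) x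
      (fun j => Finset.le_sup (f := fun j => (x j).natDegree) (Finset.mem_univ j)) hx)
  have hNmap : N.map (fun p => p.eval ε) = condM r (r * m) (e * m + t)
      (gpoly (fun i => a0 i + if i = last then ε else 0)) := by
    have h1 := condM_map (evalRingHom ε : k[X] →+* k) r (r * m) (e * m + t)
      ((gpoly a0).map (C : k →+* k[X]) + C (X : k[X]) * (X ^ a : k[X]).map (C : k →+* k[X]))
    have h2 : ((gpoly a0).map (C : k →+* k[X]) + C (X : k[X]) * (X ^ a : k[X]).map (C : k →+* k[X])).map
        (evalRingHom ε) = gpoly (fun i => a0 i + if i = last then ε else 0) := by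
      rw [Polynomial.map_add, Polynomial.map_map, Polynomial.map_mul, Polynomial.map_map, map_C]
      have h3 : (evalRingHom ε).comp (C : k →+* k[X]) = RingHom.id k := by ext; simp
      rw [h3, Polynomial.map_id, Polynomial.map_id]
      unfold gpoly
      simp only [map_add, add_mul, Finset.sum_add_distrib]
      congr 1
      rw [Finset.sum_eq_single last]
      · simp [hlast]
      · intro b _ hb; simp [hb]
      · intro h; exact absurd (Finset.mem_univ _) h
    rw [h2] at h1
    exact h1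
  refine open_of_special r (r * m) (e * m + t) hr (fun i => a0 i + if i = last then ε else 0) ?_
  intro F hF hW
  rw [eq_toPoly F hF] at hW ⊢
  rw [← condM_iff _ _ _ hr, ← hNmap] at hW
  have := hε _ hW
  rw [this]
  simp [toPoly]

end Helper67.CF
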